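import Pool.Agent.H454R3.Spec.Gam

/-!
The valuation ring and its quotient.
-/

namespace Pool.Agent.H454R3.Spec

open Filter

/-- The ambient field. -/
abbrev KK := HahnSeries Gam (ZMod 2)

noncomputable def tt (γ : Gam) : KK := HahnSeries.single γ (1 : ZMod 2)

theorem tt_ne (γ : Gam) : tt γ ≠ 0 := HahnSeries.single_ne_zero one_ne_zero

theorem tt_mul (γ δ : Gam) : tt γ * tt δ = tt (γ + δ) := by
  rw [tt, tt, HahnSeries.single_mul_single, mul_one]; rfl

theorem tt_order (γ : Gam) : (tt γ).order = γ := HahnSeries.order_single one_ne_zero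

theorem tt_zero : tt 0 = 1 := rfl

def mulL (A A' : List Ex) : List Ex := A.flatMap fun a => A'.map fun a' => a ++ a'

namespace Dat

variable (D : Dat)

noncomputable def S (A : List Ex) : KK := (A.map fun a => tt (D.W a)).sum

@[simp] theorem S_nil : D.S [] = 0 := rfl

theorem S_cons (a : Ex) (A : List Ex) : D.S (a :: A) = tt (D.W a) + D.S A := by simp [S]

theorem S_one : D.S [[]] = 1 := by simp [S, tt_zero]

theorem S_append (A A' : List Ex) : D.S (A ++ A') = D.S A + D.S A' := by simp [S]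

theorem S_mul (A A' : List Ex) : D.S (mulL A A') = D.S A * D.S A' := by
  induction A with
  | nil => simp [mulL]
  | cons a A ih =>
    have h1 : mulL (a :: A) A' = (A'.map fun a' => a ++ a') ++ mulL A A' := by simp [mulL]
    rw [h1, S_append, ih, S_cons, add_mul]
    congr 1
    rw [S, S, List.map_map, ← List.sum_map_mul_left]
    congr 1
    refine List.map_congr_left fun a' _ => ?_
    simp only [Function.comp]
    rw [D.W_append, tt_mul]

open Classical in
theorem coeff_S (A : List Ex) (γ : Gam) :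
    (D.S A).coeff γ = ((A.countP fun a => decide (D.W a = γ) : ℕ) : ZMod 2) := by
  induction A with
  | nil => simp
  | cons a A ih =>
    rw [S_cons, HahnSeries.coeff_add, ih, tt, HahnSeries.coeff_single, List.countP_cons]
    by_cases h : D.W a = γ
    · simp [h, add_comm]
    · rw [if_neg (fun h' => h h'.symm)]; simp [h]

open Classical in
/-- `a` occurs an odd number of times in `A`. -/
noncomputable def od (A : List Ex) (a : Ex) : Prop := Odd (A.countP fun a' => decide (D.W a' = D.W a))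

theorem od_iff (A : List Ex) (a : Ex) : D.od A a ↔ (D.S A).coeff (D.W a) ≠ 0 := by
  rw [coeff_S, od, Ne, ZMod.natCast_eq_zero_iff_even, Nat.not_even_iff_odd]

theorem exists_coeff {A : List Ex} {γ : Gam} (h : (D.S A).coeff γ ≠ 0) :
    ∃ a ∈ A, D.W a = γ := by
  classical
  rw [coeff_S] at h
  have h1 : (A.countP fun a => decide (D.W a = γ)) ≠ 0 := fun h0 => h (by rw [h0]; simp)
  obtain ⟨a, ha, h2⟩ := List.countP_pos_iff.1 (Nat.pos_of_ne_zero h1)
  exact ⟨a, ha, by simpa using h2⟩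

theorem order_S {A : List Ex} (h : D.S A ≠ 0) :
    ∃ a ∈ A, D.od A a ∧ D.W a = (D.S A).order := by
  have h1 : (D.S A).coeff (D.S A).order ≠ 0 := fun h0 => h (HahnSeries.coeff_order_eq_zero.1 h0)
  obtain ⟨a, ha, h2⟩ := D.exists_coeff h1
  exact ⟨a, ha, by rw [od_iff, h2]; exact h1, h2⟩

theorem order_le {A : List Ex} {a : Ex} (h : D.od A a) : (D.S A).order ≤ D.W a :=
  HahnSeries.order_le_of_coeff_ne_zero ((D.od_iff A a).1 h)

theorem S_ne_iff (A : List Ex) : D.S A ≠ 0 ↔ ∃ a ∈ A, D.od A a := by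
  constructor
  · intro h
    obtain ⟨a, ha, h1, _⟩ := D.order_S h
    exact ⟨a, ha, h1⟩
  · rintro ⟨a, _, h⟩ h0
    rw [od_iff, h0] at h
    exact h rfl

theorem test (A B : List Ex) (hB : D.S B ≠ 0) (ρ : Gam → Prop)
    (hρ : ∀ γ δ, γ ≤ δ → ρ γ → ρ δ) :
    (D.S A = 0 ∨ ρ ((D.S A).order - (D.S B).order)) ↔
      ∀ a ∈ A, D.od A a → ∃ b ∈ B, D.od B b ∧ ρ (D.W a - D.W b) := by
  constructor
  · intro h a ha ho
    rcases h with h | h
    · exact absurd h ((D.S_ne_iff A).2 ⟨a, ha, ho⟩)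
    · obtain ⟨b, hb, h1, h2⟩ := D.order_S hB
      refine ⟨b, hb, h1, hρ _ _ ?_ h⟩
      rw [h2]
      exact sub_le_sub_right (D.order_le ho) _
  · intro h
    by_cases h0 : D.S A = 0
    · exact Or.inl h0
    · right
      obtain ⟨a, ha, h1, h2⟩ := D.order_S h0
      obtain ⟨b, hb, h3, h4⟩ := h a ha h1
      refine hρ _ _ ?_ h4
      rw [h2]
      exact sub_le_sub_left (D.order_le h3) _

/-- The fractions. -/
def FF (z : KK) : Prop := ∃ A B, D.S B ≠ 0 ∧ z = D.S A / D.S B

theorem FF.mul {z w : KK} (hz : D.FF z) (hw : D.FF w) : D.FF (z * w) := by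
  obtain ⟨A, B, hB, rfl⟩ := hz
  obtain ⟨A', B', hB', rfl⟩ := hw
  refine ⟨mulL A A', mulL B B', ?_, ?_⟩
  · rw [S_mul]; exact mul_ne_zero hB hB'
  · rw [S_mul, S_mul, div_mul_div_comm]

theorem FF.add {z w : KK} (hz : D.FF z) (hw : D.FF w) : D.FF (z + w) := by
  obtain ⟨A, B, hB, rfl⟩ := hz
  obtain ⟨A', B', hB', rfl⟩ := hw
  refine ⟨mulL A B' ++ mulL B A', mulL B B', ?_, ?_⟩
  · rw [S_mul]; exact mul_ne_zero hB hB'
  · rw [S_append, S_mul, S_mul, S_mul, div_add_div _ _ hB hB']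

theorem FF.inv {z : KK} (hz : D.FF z) : D.FF z⁻¹ := by
  obtain ⟨A, B, hB, rfl⟩ := hz
  by_cases hA : D.S A = 0
  · rw [hA]
    exact ⟨[], [[]], by rw [S_one]; exact one_ne_zero, by simp⟩
  · exact ⟨B, A, hA, by rw [inv_div]⟩

theorem FF_tt (e : Ex) : D.FF (tt (D.W e)) :=
  ⟨[e], [[]], by rw [S_one]; exact one_ne_zero, by rw [S_one]; simp [S]⟩

theorem FF_order {z : KK} (hz : D.FF z) (h0 : z ≠ 0) : ∃ e, z.order = D.W e := by
  obtain ⟨A, B, hB, rfl⟩ := hz
  have hA : D.S A ≠ 0 := fun h => h0 (by rw [h, zero_div])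
  obtain ⟨a, _, _, ha⟩ := D.order_S hA
  obtain ⟨b, _, _, hb⟩ := D.order_S hB
  refine ⟨a ++ ng b, ?_⟩
  rw [D.W_append, D.W_ng, ha, hb]
  have h1 : (D.S A / D.S B * D.S B).order = (D.S A / D.S B).order + (D.S B).order :=
    HahnSeries.order_mul h0 hB
  rw [div_mul_cancel₀ _ hB] at h1
  rw [h1]; abel

theorem KK_add_self (z : KK) : z + z = 0 := by
  ext γ
  rw [HahnSeries.coeff_add]
  exact CharTwo.add_self_eq_zero _

theorem KK_neg (z : KK) : -z = z := by
  rw [neg_eq_iff_add_eq_zero]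
  exact KK_add_self z

/-- Everything except `0` is compared with the help of `order`. -/
def up (ρ : Gam → Prop) (z : KK) : Prop := z = 0 ∨ ρ z.order

theorem up_add {ρ : Gam → Prop} (hρ : ∀ γ δ, γ ≤ δ → ρ γ → ρ δ) {z w : KK} (hz : up ρ z)
    (hw : up ρ w) : up ρ (z + w) := by
  by_cases h : z + w = 0
  · exact Or.inl h
  · rcases hz with rfl | hz
    · rw [zero_add]; exact hw
    · rcases hw with rfl | hw
      · rw [add_zero]; exact Or.inr hz
      · right
        refine hρ _ _ (HahnSeries.min_order_le_order_add h) ?_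
        rcases min_choice z.order w.order with h1 | h1 <;> rw [h1] <;> assumption

/-- The bounded values. -/
def bd (γ : Gam) : Prop := ∃ N : ℕ, -(N : Gam) ≤ γ

theorem bd_mono : ∀ γ δ : Gam, γ ≤ δ → bd γ → bd δ := fun _ _ h ⟨N, hN⟩ => ⟨N, hN.trans h⟩

/-- The valuation ring. -/
noncomputable def Rt : Subring KK where
  carrier := {z | D.FF z ∧ up bd z}
  mul_mem' := by
    rintro z w ⟨h1, h2⟩ ⟨h3, h4⟩
    refine ⟨h1.mul D h3, ?_⟩
    by_cases hz : z = 0
    · left; rw [hz, zero_mul]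
    by_cases hw : w = 0
    · left; rw [hw, mul_zero]
    right
    obtain ⟨N, hN⟩ := h2.resolve_left hz
    obtain ⟨M, hM⟩ := h4.resolve_left hw
    refine ⟨N + M, ?_⟩
    rw [HahnSeries.order_mul hz hw]
    push_cast
    linarith
  one_mem' := by
    refine ⟨⟨[[]], [[]], by rw [S_one]; exact one_ne_zero, by rw [S_one]; simp⟩, Or.inr ⟨0, ?_⟩⟩
    rw [HahnSeries.order_one]; simp
  add_mem' := by
    rintro z w ⟨h1, h2⟩ ⟨h3, h4⟩
    exact ⟨h1.add D h3, up_add bd_mono h2 h4⟩
  zero_mem' := ⟨⟨[], [[]], by rw [S_one]; exact one_ne_zero, by simp⟩, Or.inl rfl⟩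
  neg_mem' := by
    rintro z h
    rw [KK_neg]
    exact h

theorem mem_Rt {z : KK} : z ∈ D.Rt ↔ D.FF z ∧ up bd z := Iff.rfl

/-- The ideal of elements of values given by an upward closed set which is stable under
subtracting finite values. -/
noncomputable def idl (ρ : Gam → Prop) (hρ : ∀ γ δ, γ ≤ δ → ρ γ → ρ δ)
    (hs : ∀ γ (N : ℕ), ρ γ → ρ (γ - N)) : Ideal D.Rt where
  carrier := {z | up ρ (z : KK)}
  add_mem' := by
    intro z w h1 h2
    exact up_add hρ h1 h2
  zero_mem' := Or.inl rfl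
  smul_mem' := by
    rintro ⟨w, hw1, hw2⟩ ⟨z, hz1, hz2⟩ h
    show up ρ (w * z)
    by_cases hz : z = 0
    · left; rw [hz, mul_zero]
    by_cases hw : w = 0
    · left; rw [hw, zero_mul]
    right
    have h1 : ρ z.order := h.resolve_left hz
    obtain ⟨N, hN⟩ := hw2.resolve_left hw
    rw [HahnSeries.order_mul hw hz]
    refine hρ _ _ ?_ (hs _ N h1)
    linarith

/-- The ideal which is factored out. -/
noncomputable def II : Ideal D.Rt := D.idl D.big (fun _ _ h => D.big_mono h)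
  (fun _ N h => D.big_sub h N)

theorem mem_II {z : D.Rt} : z ∈ D.II ↔ up D.big (z : KK) := Iff.rfl

variable {x : ℕ → ℕ}

/-- The prime ideal given by a path. -/
noncomputable def pp (hx : D.IsPath x) : Ideal D.Rt := D.idl (D.EE x) (fun _ _ h => D.EE_mono h)
  (fun _ N h => D.EE_sub hx h N)

theorem mem_pp {hx : D.IsPath x} {z : D.Rt} : z ∈ D.pp hx ↔ up (D.EE x) (z : KK) := Iff.rfl

theorem II_le_pp (hx : D.IsPath x) : D.II ≤ D.pp hx := by
  rintro z (h | h)
  · exact Or.inl h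
  · by_cases h0 : (z : KK) = 0
    · exact Or.inl h0
    · obtain ⟨e, he⟩ := D.FF_order z.2.1 h0
      right
      rw [he] at h ⊢
      exact D.EE_of_big hx h

theorem pp_prime (hx : D.IsPath x) : (D.pp hx).IsPrime := by
  refine Ideal.isPrime_iff.2 ⟨?_, ?_⟩
  · rw [Ideal.ne_top_iff_one, mem_pp]
    rintro (h | h)
    · exact one_ne_zero h
    · have h1 : ((1 : D.Rt) : KK).order = 0 := HahnSeries.order_one
      rw [h1] at h
      exact D.not_EE_zero h
  · intro z w h
    by_contra hcon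
    push Not at hcon
    obtain ⟨h1, h2⟩ := hcon
    have hz : (z : KK) ≠ 0 := fun h' => h1 (Or.inl h')
    have hw : (w : KK) ≠ 0 := fun h' => h2 (Or.inl h')
    have hz1 : ¬ D.EE x (z : KK).order := fun h' => h1 (Or.inr h')
    have hw1 : ¬ D.EE x (w : KK).order := fun h' => h2 (Or.inr h')
    have h3 : D.EE x ((z : KK) * w).order := h.resolve_left (mul_ne_zero hz hw)
    rw [HahnSeries.order_mul hz hw] at h3
    obtain ⟨e, he⟩ := D.FF_order z.2.1 hz
    obtain ⟨e', he'⟩ := D.FF_order w.2.1 hw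
    rw [he] at hz1 h3
    rw [he'] at hw1 h3
    have k1 : ∀ e, ¬ D.EE x (D.W e) → ∃ C i : ℕ, D.W e ≤ C * D.cu (x i, i) := by
      intro e h4
      rcases D.EE_cases hx e with ⟨h5, _⟩ | ⟨⟨C, h5⟩, _⟩
      · exact absurd ⟨st e, 2, by simpa using h5⟩ h4
      · exact ⟨C, _, h5⟩
    obtain ⟨C, i, h5⟩ := k1 e hz1
    obtain ⟨C', i', h6⟩ := k1 e' hw1
    obtain ⟨j, M, hM⟩ := h3
    have h7 := D.path_lt hx i j (2 * M * C)
    have h8 := D.path_lt hx i' j (2 * M * C')
    have h9 : (M : Gam) * (D.W e + D.W e') ≤ M * (C * D.cu (x i, i) + C' * D.cu (x i', i')) :=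
      mul_le_mul_of_nonneg_left (add_le_add h5 h6) (Nat.cast_nonneg M)
    push_cast at h7 h8
    linarith

/-- Divisibility in the valuation ring. -/
theorem div_mem {z w : KK} (hz : D.FF z) (hz0 : z ≠ 0) (hw : D.FF w) (hw0 : w ≠ 0) {N : ℕ}
    (h : z.order - N ≤ w.order) : w / z ∈ D.Rt := by
  refine ⟨by rw [div_eq_mul_inv]; exact hw.mul D (hz.inv D), Or.inr ⟨N, ?_⟩⟩
  have h1 : w / z ≠ 0 := div_ne_zero hw0 hz0
  have h2 := HahnSeries.order_mul h1 hz0
  rw [div_mul_cancel₀ _ hz0] at h2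
  linarith

/-- The element of the ring given by a cut. -/
noncomputable def tc (u : ℕ × ℕ) : D.Rt :=
  ⟨tt (D.cu u), by rw [← D.W_single]; exact D.FF_tt _, Or.inr ⟨0, by
    rw [tt_order]; simpa using (D.cu_pos u).le⟩⟩

theorem tc_FF (u : ℕ × ℕ) : D.FF (tt (D.cu u)) := by rw [← D.W_single]; exact D.FF_tt _

theorem tt_pow (γ : Gam) (n : ℕ) : tt γ ^ n = tt (n * γ) := by
  induction n with
  | zero => simp [tt_zero]
  | succ n ih => rw [pow_succ, ih, tt_mul]; push_cast; ring_nf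

/-- Every prime ideal above `II` comes from a path. -/
theorem exists_path (q : Ideal D.Rt) (hq : q.IsPrime) (hI : D.II ≤ q) :
    ∃ (x : ℕ → ℕ) (hx : D.IsPath x), q = D.pp hx := by
  classical
  -- membership only depends on the order, up to multiples
  have key : ∀ (z w : D.Rt) (M : ℕ), (z : KK) ≠ 0 → (w : KK) ≠ 0 →
      (z : KK).order ≤ M * (w : KK).order → z ∈ q → w ∈ q := by
    intro z w M hz hw h hzq
    have h1 : (w : KK) ^ M ≠ 0 := pow_ne_zero _ hw
    have h0 : ((w : KK) ^ M).order = M * (w : KK).order := by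
      rw [HahnSeries.order_pow, nsmul_eq_mul]
    have h2 : (w : KK) ^ M / z ∈ D.Rt := by
      refine D.div_mem z.2.1 hz ?_ h1 (N := 0) ?_
      · exact (w ^ M : D.Rt).2.1
      · rw [h0]; simpa using h
    have h3 : w ^ M = z * ⟨_, h2⟩ := by
      apply Subtype.ext
      show (w : KK) ^ M = z * ((w : KK) ^ M / z)
      rw [mul_div_cancel₀ _ hz]
    exact hq.mem_of_pow_mem M (by rw [h3]; exact Ideal.mul_mem_right _ _ hzq)
  have tcne : ∀ u, ((D.tc u : D.Rt) : KK) ≠ 0 := fun u => tt_ne _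
  have tco : ∀ u, ((D.tc u : D.Rt) : KK).order = D.cu u := fun u => tt_order _
  have h0 : ∀ i, D.tc (0, i) ∉ q := by
    intro i h
    have h1 : (tt (-1 : Gam)) ∈ D.Rt := by
      refine ⟨?_, Or.inr ⟨1, by rw [tt_order]; simp⟩⟩
      have h2 := (D.FF_tt [(true, 0, 0)]).inv D
      rw [D.W_single, D.cu_zero] at h2
      have h3 : tt (-1 : Gam) = (tt 1)⁻¹ := by
        refine eq_inv_of_mul_eq_one_left ?_
        rw [tt_mul]; simp [tt_zero]
      rwa [h3]
    refine hq.ne_top ((Ideal.eq_top_iff_one _).2 ?_)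
    have h2 : (1 : D.Rt) = ⟨_, h1⟩ * D.tc (0, i) := by
      apply Subtype.ext
      show (1 : KK) = tt (-1) * tt (D.cu (0, i))
      rw [D.cu_zero, tt_mul]; simp [tt_zero]
    rw [h2]
    exact Ideal.mul_mem_left _ _ h
  have htop : ∀ i, D.tc (D.B i, i) ∈ q := by
    intro i
    refine hI (Or.inr ?_)
    rw [tco]
    refine ⟨0, ?_⟩
    have h1 : D.Om ≤ D.cu (D.B i, i) := D.cu_mono (by show 1 * D.B i ≤ D.B i * 1; omega)
    have h2 := D.cu_pos (D.B i, i)
    simp only [Nat.cast_zero, sub_zero]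
    linarith
  have mono : ∀ u v, D.cle u v → D.tc u ∈ q → D.tc v ∈ q := by
    intro u v h h1
    refine key _ _ 1 (tcne u) (tcne v) ?_ h1
    rw [tco, tco]; simpa using D.cu_mono h
  have hex : ∀ i, ∃ a, D.tc (a + 1, i) ∈ q := by
    intro i
    refine ⟨D.B i - 1, ?_⟩
    have : D.B i - 1 + 1 = D.B i := Nat.succ_pred_eq_of_pos (D.B_pos i)
    rw [this]; exact htop i
  set x : ℕ → ℕ := fun i => Nat.find (hex i) with hxdef
  have hx1 : ∀ i, D.tc (x i + 1, i) ∈ q := fun i => Nat.find_spec (hex i)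
  have hx2 : ∀ i, D.tc (x i, i) ∉ q := by
    intro i
    rcases Nat.eq_zero_or_pos (x i) with h | h
    · rw [h]; exact h0 i
    · have h1 := Nat.find_min (hex i) (m := x i - 1) (by show x i - 1 < x i; omega)
      have h2 : x i - 1 + 1 = x i := by omega
      rwa [h2] at h1
  have hx3 : ∀ i, x i < D.B i := by
    intro i
    have h1 : x i ≤ D.B i - 1 := Nat.find_min' (hex i) (by
      have : D.B i - 1 + 1 = D.B i := Nat.succ_pred_eq_of_pos (D.B_pos i)
      rw [this]; exact htop i)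
    have := D.B_pos i
    omega
  have hx : D.IsPath x := by
    intro j
    refine ⟨hx3 j, ?_, ?_⟩
    · by_contra hT
      obtain ⟨M, hM⟩ := D.merge (hx3 j) hT
      exact hx2 j (key (D.tc (x j + 1, j)) (D.tc (x j, j)) M (tcne _) (tcne _)
        (by rw [tco, tco]; exact hM) (hx1 j))
    · have hb := D.hb j
      have h1 : x j * D.b j ≤ x (j + 1) := by
        by_contra hcon
        push Not at hcon
        refine hx2 j (mono (x (j + 1) + 1, j + 1) _ ?_ (hx1 (j + 1)))
        show (x (j + 1) + 1) * D.B j ≤ x j * D.B (j + 1)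
        rw [D.B_succ]
        calc (x (j + 1) + 1) * D.B j ≤ (x j * D.b j) * D.B j := Nat.mul_le_mul_right _ hcon
          _ = _ := by ring
      have h2 : x (j + 1) < (x j + 1) * D.b j := by
        by_contra hcon
        push Not at hcon
        refine hx2 (j + 1) (mono (x j + 1, j) _ ?_ (hx1 j))
        show (x j + 1) * D.B (j + 1) ≤ x (j + 1) * D.B j
        rw [D.B_succ]
        calc (x j + 1) * (D.B j * D.b j) = ((x j + 1) * D.b j) * D.B j := by ring
          _ ≤ _ := Nat.mul_le_mul_right _ hcon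
      have h3 : x j ≤ x (j + 1) / D.b j := (Nat.le_div_iff_mul_le hb).2 h1
      have h4 : x (j + 1) / D.b j < x j + 1 := (Nat.div_lt_iff_lt_mul hb).2 h2
      omega
  refine ⟨x, hx, ?_⟩
  ext z
  by_cases hz : (z : KK) = 0
  · have : z = 0 := Subtype.ext hz
    rw [this]
    exact iff_of_true q.zero_mem (D.pp hx).zero_mem
  · rw [mem_pp]
    obtain ⟨e, he⟩ := D.FF_order z.2.1 hz
    have h5 : up (D.EE x) (z : KK) ↔ D.EE x (D.W e) := by
      rw [← he]
      exact ⟨fun h => h.resolve_left hz, Or.inr⟩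
    rw [h5]
    rcases D.EE_cases hx e with ⟨h6, _⟩ | ⟨⟨C, h6⟩, h7, _⟩
    · refine iff_of_true ?_ ⟨_, 2, by simpa using h6⟩
      exact key _ z 2 (tcne _) hz (by rw [tco, he]; simpa using h6) (hx1 (st e))
    · refine iff_of_false ?_ h7
      intro hzq
      refine hx2 (st e) (key z _ C hz (tcne _) ?_ hzq)
      rw [tco, he]; exact h6

end Dat

end Pool.Agent.H454R3.Spec
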