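import Pool.Agent.H454R3.Spec.Alg
import Pool.Agent.Helper578.JD.Comp

/-!
Codes of the elements of the ring, and the computability of the operations and of equality.
-/

namespace Pool.Agent.H454R3.Spec

open Filter Encodable
open Pool.Agent.Helper578.JD

section general

variable {α β : Type*} [Primcodable α] [Primcodable β]

theorem cp_and {p q : α → Prop} (hp : ComputablePred p) (hq : ComputablePred q) :
    ComputablePred fun a => p a ∧ q a := by
  refine RE.cp_of_re (RE.and hp.to_re hq.to_re) ?_
  refine (RE.or hp.not.to_re hq.not.to_re).of_eq fun a => ?_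
  tauto

theorem cp_imp {p q : α → Prop} (hp : ComputablePred p) (hq : ComputablePred q) :
    ComputablePred fun a => p a → q a := by
  refine (cp_and hp hq.not).not.of_eq fun a => ?_
  tauto

theorem cp_all_mem {p : α → β → Prop} (hp : ComputablePred fun x : α × β => p x.1 x.2)
    {l : α → List β} (hl : Computable l) : ComputablePred fun a => ∀ b ∈ l a, p a b := by
  refine RE.cp_of_re (RE.all_mem hp.to_re hl) ?_
  refine (RE.ex_mem (p := fun a b => ¬ p a b) hp.not.to_re hl).of_eq fun a => ?_
  push Not; rfl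

theorem cp_ex_mem {p : α → β → Prop} (hp : ComputablePred fun x : α × β => p x.1 x.2)
    {l : α → List β} (hl : Computable l) : ComputablePred fun a => ∃ b ∈ l a, p a b := by
  refine (cp_all_mem (p := fun a b => ¬ p a b) hp.not hl).not.of_eq fun a => ?_
  push Not; rfl

theorem comp_pow2 {f : α → ℕ} (hf : Computable f) : Computable fun a => 2 ^ f a := by
  have h := Computable.nat_rec (f := f) (g := fun _ : α => 1)
    (h := fun (_ : α) (y : ℕ × ℕ) => y.2 * 2) hf (Computable.const 1) (by
      show Computable fun z : α × (ℕ × ℕ) => z.2.2 * 2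
      fun_prop)
  refine h.of_eq fun a => ?_
  generalize f a = n
  induction n with
  | zero => rfl
  | succ n ih => rw [pow_succ, ← ih]

end general

namespace Dat

variable (D : Dat)

section comp

variable (hb : Computable D.b) (hT : Computable₂ D.T)

include hb in
theorem comp_B : Computable D.B := by
  have h := Computable.nat_rec (f := fun n : ℕ => n) (g := fun _ : ℕ => 1)
    (h := fun (_ : ℕ) (y : ℕ × ℕ) => y.2 * D.b y.1) Computable.id (Computable.const 1) (by
      show Computable fun z : ℕ × (ℕ × ℕ) => z.2.2 * D.b z.2.1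
      have := hb.comp (Computable.fst.comp (Computable.snd (α := ℕ) (β := ℕ × ℕ)))
      exact RE.cmul (by fun_prop) this)
  refine h.of_eq fun n => ?_
  show _ = BB D.b n
  induction n with
  | zero => rfl
  | succ n ih => rw [BB, ← ih]

include hb hT in
theorem comp_cnt : Computable fun p : ℕ × (ℕ × ℕ) => D.cnt p.1 p.2 := by
  have hB := D.comp_B hb
  have hq : Computable fun z : (ℕ × (ℕ × ℕ)) × (ℕ × ℕ) =>
      (D.T z.1.1 z.2.1 && decide ((z.2.1 + 1) * D.B z.1.2.2 ≤ z.1.2.1 * D.B z.1.1)) := by
    refine RE.cand ?_ ?_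
    · exact hT.comp (Computable.fst.comp Computable.fst) (Computable.fst.comp Computable.snd)
    · refine RE.cdecide (RE.cp_le ?_ ?_)
      · exact RE.cmul (by fun_prop) (hB.comp (by fun_prop))
      · exact RE.cmul (by fun_prop) (hB.comp (by fun_prop))
  have h := Computable.nat_rec (f := fun p : ℕ × (ℕ × ℕ) => D.B p.1) (g := fun _ => (0 : ℕ))
    (h := fun (p : ℕ × (ℕ × ℕ)) (y : ℕ × ℕ) => y.2 + (bif (D.T p.1 y.1 &&
      decide ((y.1 + 1) * D.B p.2.2 ≤ p.2.1 * D.B p.1)) then 1 else 0))
    (hB.comp Computable.fst) (Computable.const 0) (by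
      refine RE.cadd (by fun_prop) ?_
      exact Computable.cond hq (Computable.const 1) (Computable.const 0))
  refine h.of_eq fun p => ?_
  rw [cnt, cset]
  have key : ∀ n, (Nat.rec (motive := fun _ => ℕ) 0 (fun y IH => IH + bif D.T p.1 y &&
      decide ((y + 1) * D.B p.2.2 ≤ p.2.1 * D.B p.1) then 1 else 0) n : ℕ) =
      ((Finset.range n).filter fun τ => D.T p.1 τ = true ∧ D.lft p.1 τ p.2).card := by
    intro n
    induction n with
    | zero => rfl
    | succ n ih =>
      rw [Finset.range_add_one, Finset.filter_insert]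
      simp only [] at ih ⊢
      rw [ih]
      by_cases hc : D.T p.1 n = true ∧ D.lft p.1 n p.2
      · rw [if_pos hc, Finset.card_insert_of_notMem (by simp)]
        have : (D.T p.1 n && decide ((n + 1) * D.B p.2.2 ≤ p.2.1 * D.B p.1)) = true := by
          simp only [Bool.and_eq_true, decide_eq_true_eq]; exact hc
        rw [this]; rfl
      · rw [if_neg hc]
        have : (D.T p.1 n && decide ((n + 1) * D.B p.2.2 ≤ p.2.1 * D.B p.1)) = false := by
          rw [← Bool.not_eq_true]
          simp only [Bool.and_eq_true, decide_eq_true_eq]; exact hc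
        rw [this]; rfl
  exact key _

include hb hT in
theorem comp_r : Computable fun p : ℕ × (ℕ × ℕ) => D.r p.1 p.2 := by
  have hc := D.comp_cnt hb hT
  have h := Computable.nat_rec (f := fun p : ℕ × (ℕ × ℕ) => p.1 + 1) (g := fun _ => (0 : ℕ))
    (h := fun (p : ℕ × (ℕ × ℕ)) (y : ℕ × ℕ) => y.2 + y.1 * D.cnt y.1 p.2)
    (by fun_prop) (Computable.const 0) (by
      refine RE.cadd (by fun_prop) (RE.cmul (by fun_prop) ?_)
      exact hc.comp (f := fun p : ℕ × (ℕ × ℕ) => D.cnt p.1 p.2)
        (g := fun z : (ℕ × (ℕ × ℕ)) × (ℕ × ℕ) => (z.2.1, z.1.2)) (by fun_prop))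
  refine h.of_eq fun p => ?_
  rw [r]
  generalize p.1 + 1 = n
  induction n with
  | zero => rfl
  | succ n ih => rw [Finset.sum_range_succ, ← ih]

/-- The sum of the weights of the cuts with the given sign. -/
def wb (s : ℕ) (e : Ex) (fl : Bool) : ℕ :=
  e.foldl (fun acc x => acc + bif (x.1 == fl) then 2 ^ D.r s x.2 else 0) 0

theorem wb_eq (s : ℕ) (e : Ex) (fl : Bool) :
    D.wb s e fl = (e.map fun x => bif (x.1 == fl) then 2 ^ D.r s x.2 else 0).sum := by
  rw [wb]
  have h : ∀ (e : Ex) (n : ℕ), e.foldl (fun acc x => acc + bif (x.1 == fl) then 2 ^ D.r s x.2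
      else 0) n = n + (e.map fun x => bif (x.1 == fl) then 2 ^ D.r s x.2 else 0).sum := by
    intro e
    induction e with
    | nil => intro n; simp
    | cons x e ih => intro n; rw [List.foldl_cons, ih, List.map_cons, List.sum_cons]; omega
  rw [h, zero_add]

theorem Wt_wb (s : ℕ) (e : Ex) : D.Wt s (sg e) = D.wb s e true - D.wb s e false := by
  rw [wb_eq, wb_eq]
  induction e with
  | nil => simp [sg]
  | cons x e ih =>
    have h : D.Wt s (sg (x :: e)) = (if x.1 = true then 1 else -1) * 2 ^ D.r s x.2 + D.Wt s (sg e) :=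
      by simp [sg, Wt]
    rw [h, ih]
    obtain ⟨b, u⟩ := x
    cases b <;> simp <;> ring

include hb hT in
theorem comp_wb : Computable fun p : (ℕ × Ex) × Bool => D.wb p.1.1 p.1.2 p.2 := by
  have hr := D.comp_r hb hT
  refine RE.list_foldl (f := fun p : (ℕ × Ex) × Bool => p.1.2) (g := fun _ => (0 : ℕ))
    (h := fun p (y : ℕ × (Bool × ℕ × ℕ)) => y.1 + bif (y.2.1 == p.2) then
      2 ^ D.r p.1.1 y.2.2 else 0) (by fun_prop) (Computable.const 0) ?_
  refine RE.cadd (by fun_prop) ?_
  refine Computable.cond ?_ ?_ (Computable.const 0)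
  · exact Primrec.beq.to_comp.comp (by fun_prop) (by fun_prop)
  · refine comp_pow2 ?_
    exact hr.comp (f := fun p : ℕ × (ℕ × ℕ) => D.r p.1 p.2)
      (g := fun z : ((ℕ × Ex) × Bool) × (ℕ × (Bool × ℕ × ℕ)) => (z.1.1.1, z.2.2.2)) (by fun_prop)

theorem comp_st : Computable st := by
  have h : Computable fun e : Ex => e.foldl (fun acc x => acc + (x.2.2 + 1)) 3 := by
    refine RE.list_foldl (f := fun e : Ex => e) (g := fun _ => (3 : ℕ))
      (h := fun _ (y : ℕ × (Bool × ℕ × ℕ)) => y.1 + (y.2.2.2 + 1)) Computable.id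
      (Computable.const 3) ?_
    show Computable fun z : Ex × (ℕ × (Bool × ℕ × ℕ)) => z.2.1 + (z.2.2.2.2 + 1)
    fun_prop
  refine h.of_eq fun e => ?_
  rw [st]
  have h : ∀ (e : Ex) (n : ℕ), e.foldl (fun acc x => acc + (x.2.2 + 1)) n =
      (e.map fun x => x.2.2 + 1).sum + n := by
    intro e
    induction e with
    | nil => intro n; simp
    | cons x e ih => intro n; rw [List.foldl_cons, ih, List.map_cons, List.sum_cons]; omega
  exact h e 3

include hb hT in
theorem comp_P (fl : Bool) : Computable fun e : Ex => D.wb (st e) e fl := by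
  exact (D.comp_wb hb hT).comp (f := fun p : (ℕ × Ex) × Bool => D.wb p.1.1 p.1.2 p.2)
    (g := fun e : Ex => ((st e, e), fl)) ((comp_st.pair Computable.id).pair (Computable.const _))

include hb hT in
theorem cp_nonneg : ComputablePred fun e : Ex => 0 ≤ D.W e := by
  refine (RE.cp_le (D.comp_P hb hT false) (D.comp_P hb hT true)).of_eq fun e => ?_
  rw [W_nonneg_iff, Wt_wb]; omega

include hb hT in
theorem cp_zero : ComputablePred fun e : Ex => D.W e = 0 := by
  refine (RE.cp_eq (D.comp_P hb hT false) (D.comp_P hb hT true)).of_eq fun e => ?_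
  rw [W_zero_iff, Wt_wb]; omega

include hb hT in
theorem cp_big : ComputablePred fun e : Ex => D.big (D.W e) := by
  have h1 : Computable fun e : Ex => 2 ^ D.r (st e) (1, 0) := comp_pow2
    ((D.comp_r hb hT).comp (f := fun p : ℕ × (ℕ × ℕ) => D.r p.1 p.2)
      (g := fun e : Ex => (st e, (1, 0))) (comp_st.pair (Computable.const _)))
  have h2 := D.comp_P hb hT false
  have h3 := D.comp_P hb hT true
  refine (RE.cp_le (RE.cadd h1 (RE.cmul (RE.cconst 3) h2)) (RE.cmul (RE.cconst 3) h3)).of_eq
    fun e => ?_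
  rw [big_iff, Wt_wb]
  zify
  constructor <;> intro h <;> linarith

/-- The test for membership of a value in the prime belonging to a path. -/
def EEt (p : Ex × ℕ) : Prop :=
  2 ^ D.r (st p.1) (p.2 + 1, st p.1) + 2 * D.wb (st p.1) p.1 false ≤ 2 * D.wb (st p.1) p.1 true

include hb hT in
theorem cp_EEt : ComputablePred D.EEt := by
  have h1 : Computable fun p : Ex × ℕ => 2 ^ D.r (st p.1) (p.2 + 1, st p.1) := comp_pow2
    ((D.comp_r hb hT).comp (f := fun p : ℕ × (ℕ × ℕ) => D.r p.1 p.2)
      (g := fun p : Ex × ℕ => (st p.1, (p.2 + 1, st p.1))) (by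
        have := comp_st.comp (Computable.fst (α := Ex) (β := ℕ))
        exact this.pair (Computable.pair (by fun_prop) this)))
  have h2 := (D.comp_P hb hT false).comp (Computable.fst (α := Ex) (β := ℕ))
  have h3 := (D.comp_P hb hT true).comp (Computable.fst (α := Ex) (β := ℕ))
  exact RE.cp_le (RE.cadd h1 (RE.cmul (RE.cconst 2) h2)) (RE.cmul (RE.cconst 2) h3)

theorem EEt_iff {x : ℕ → ℕ} (hx : D.IsPath x) (e : Ex) :
    D.EEt (e, x (st e)) ↔ D.EE x (D.W e) := by
  rw [EE_iff _ hx, Wt_wb, EEt]
  show 2 ^ D.r (st e) (x (st e) + 1, st e) + 2 * D.wb (st e) e false ≤ 2 * D.wb (st e) e true ↔ _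
  zify
  constructor <;> intro h <;> linarith

theorem prim_ng : Primrec ng := by
  refine Primrec.list_map Primrec.id ?_
  exact ((Primrec.not.comp (Primrec.fst.comp Primrec.snd)).pair
    (Primrec.snd.comp Primrec.snd)).to₂

theorem prim_mulL : Primrec₂ mulL := by
  refine Primrec.list_flatMap Primrec.fst ?_
  have h : Primrec fun z : (List Ex × List Ex) × Ex => z.1.2.map fun a' => z.2 ++ a' := by
    refine Primrec.list_map (Primrec.snd.comp Primrec.fst) ?_
    exact (Primrec.list_append.comp (Primrec.snd.comp Primrec.fst) Primrec.snd).to₂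
  exact h.to₂

include hb hT in
theorem cp_od : ComputablePred fun p : List Ex × Ex => D.od p.1 p.2 := by
  classical
  have hz : Computable fun e : Ex => decide (D.W e = 0) := RE.cdecide (D.cp_zero hb hT)
  have h : Computable fun p : List Ex × Ex =>
      p.1.foldl (fun s a' => s ^^ decide (D.W (a' ++ ng p.2) = 0)) false := by
    refine RE.list_foldl (f := fun p : List Ex × Ex => p.1) (g := fun _ => false)
      (h := fun p (y : Bool × Ex) => y.1 ^^ decide (D.W (y.2 ++ ng p.2) = 0)) (by fun_prop)
      (Computable.const false) ?_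
    have h1 : Computable fun z : (List Ex × Ex) × (Bool × Ex) => z.2.2 ++ ng z.1.2 :=
      RE.cappend (by fun_prop) (prim_ng.to_comp.comp (by fun_prop))
    have h2 := hz.comp h1
    refine (Computable.cond (c := fun z : (List Ex × Ex) × (Bool × Ex) => z.2.1)
      (by fun_prop) (RE.cnot h2) h2).of_eq fun z => ?_
    show _ = (z.2.1 ^^ decide (D.W (z.2.2 ++ ng z.1.2) = 0))
    cases z.2.1 <;> simp
  refine ComputablePred.computable_iff.2 ⟨_, h, ?_⟩
  funext p
  rw [eq_iff_iff]
  obtain ⟨A, a⟩ := p
  show D.od A a ↔ A.foldl (fun s a' => s ^^ decide (D.W (a' ++ ng a) = 0)) false = true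
  rw [od]
  have key : ∀ (A : List Ex) (s : Bool),
      (A.foldl (fun s a' => s ^^ decide (D.W (a' ++ ng a) = 0)) s = true ↔
        ((s = true) ↔ ¬ Odd (A.countP fun a' => decide (D.W a' = D.W a)))) := by
    intro A
    induction A with
    | nil => intro s; simp
    | cons a' A ih =>
      intro s
      rw [List.foldl_cons, ih, List.countP_cons]
      have h3 : D.W (a' ++ ng a) = 0 ↔ D.W a' = D.W a := by
        rw [W_append, W_ng, ← sub_eq_add_neg, sub_eq_zero]
      by_cases h4 : D.W a' = D.W a
      · simp only [h3, h4, decide_true, if_true, Nat.odd_add_one]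
        cases s <;> simp
      · simp only [h3, h4, decide_false]
        cases s <;> simp
  rw [key]
  simp

include hb hT in
theorem cp_test {α : Type*} [Primcodable α] {A B : α → List Ex} (hA : Computable A)
    (hB : Computable B) {ρ : α → Ex → Prop} (hρ : ComputablePred fun x : α × Ex => ρ x.1 x.2) :
    ComputablePred fun x => ∀ a ∈ A x, D.od (A x) a → ∃ b ∈ B x, D.od (B x) b ∧ ρ x (a ++ ng b) := by
  have hod := D.cp_od hb hT
  refine cp_all_mem (p := fun x a => D.od (A x) a → ∃ b ∈ B x, D.od (B x) b ∧ ρ x (a ++ ng b))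
    ?_ hA
  refine cp_imp ?_ ?_
  · exact RE.cp_comp hod (f := fun z : α × Ex => (A z.1, z.2))
      ((hA.comp Computable.fst).pair Computable.snd)
  · refine cp_ex_mem (p := fun (z : α × Ex) b => D.od (B z.1) b ∧ ρ z.1 (z.2 ++ ng b)) ?_
      (hB.comp Computable.fst)
    refine cp_and ?_ ?_
    · exact RE.cp_comp hod (f := fun z : (α × Ex) × Ex => (B z.1.1, z.2))
        ((hB.comp (Computable.fst.comp Computable.fst)).pair Computable.snd)
    · refine RE.cp_comp hρ (f := fun z : (α × Ex) × Ex => (z.1.1, z.1.2 ++ ng z.2)) ?_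
      exact Computable.pair (by fun_prop)
        (RE.cappend (by fun_prop) (prim_ng.to_comp.comp (by fun_prop)))

end comp

end Dat

end Pool.Agent.H454R3.Spec
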