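import Pool.Agent.H454R3.Spec.Tree
import Pool.Agent.Helper578.JD.Main

/-!
The main theorem.
-/

namespace Pool.Agent.H454R3.Spec

open Filter Encodable
open Pool.Agent.Helper578.JD Pool.Agent.Helper578.JD.Oracle Pool.Agent.Helper578.JD.Defs

/-- The set of prime ideals of a ring with universe `U ⊆ ℕ`, as a set of subsets of `ℕ`. -/
def SpecSet (U : Set ℕ) [CommRing U] : Set (Set ℕ) :=
  {S | ∃ p : Ideal U, p.IsPrime ∧ S = Subtype.val '' (p : Set U)}

/-- A function as an oracle. -/
def fnOracle (f : ℕ → ℕ) : ℕ →. ℕ := fun n => Part.some (f n)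

/-- The graph of a function. -/
def gph (f : ℕ → ℕ) : Set ℕ := {n | f n.unpair.1 = n.unpair.2}

theorem gph_red (f : ℕ → ℕ) : TuringReducible (chi (gph f)) (fnOracle f) := by
  classical
  rw [TuringReducible, RecursiveIn.iff_nat]
  have hc : ∀ h : ℕ → ℕ, Computable h → Nat.RecursiveIn {fnOracle f} fun n => Part.some (h n) :=
    fun h hh => Nat.Partrec.recursiveIn (Partrec.nat_iff.1 hh)
  have h1 : Nat.RecursiveIn {fnOracle f} fun n => Part.some (f n) :=
    Nat.RecursiveIn.oracle _ rfl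
  have h2 : Nat.RecursiveIn {fnOracle f} fun n => Part.some (f n.unpair.1) := by
    refine (Nat.RecursiveIn.comp h1 (hc (fun n => n.unpair.1) (by fun_prop))).of_eq fun n => ?_
    simp
  have h3 : Nat.RecursiveIn {fnOracle f} fun n => Part.some (Nat.pair (f n.unpair.1) n.unpair.2) := by
    refine (Nat.RecursiveIn.pair h2 (hc (fun n => n.unpair.2) (by fun_prop))).of_eq fun n => ?_
    simp [Seq.seq]
  have h4 : Computable fun n : ℕ => if n.unpair.1 = n.unpair.2 then 1 else 0 :=
    RE.cite (RE.cp_eq (by fun_prop) (by fun_prop)) (Computable.const 1) (Computable.const 0)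
  refine (Nat.RecursiveIn.comp (hc _ h4) h3).of_eq fun n => ?_
  simp only [Part.bind_eq_bind, Part.bind_some, Nat.unpair_pair]
  show _ = Part.some (chiN (gph f) n)
  congr 1
  by_cases h : f n.unpair.1 = n.unpair.2
  · rw [if_pos h, (chiN_eq_one (A := gph f) (n := n)).2 h]
  · rw [if_neg h, (chiN_eq_zero (A := gph f) (n := n)).2 h]

theorem mem_gph {f : ℕ → ℕ} {a b : ℕ} : Nat.pair a b ∈ gph f ↔ f a = b := by
  simp [gph]

namespace Dat

variable (D : Dat)

theorem tc_mem {x : ℕ → ℕ} (hx : D.IsPath x) (a i : ℕ) : D.tc (a, i) ∈ D.pp hx ↔ x i < a := by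
  have h0 : ((D.tc (a, i) : D.Rt) : KK) ≠ 0 := tt_ne _
  have h1 : ((D.tc (a, i) : D.Rt) : KK).order = D.cu (a, i) := tt_order _
  rw [mem_pp]
  constructor
  · intro h
    by_contra hcon
    push Not at hcon
    have h2 := h.resolve_left h0
    rw [h1] at h2
    refine D.not_EE_cut hx i (D.EE_mono (D.cu_mono ?_) h2)
    exact Nat.mul_le_mul_right _ hcon
  · intro h
    right
    rw [h1]
    refine D.EE_mono (D.cu_mono ?_) (D.EE_cut (x := x) i)
    exact Nat.mul_le_mul_right _ h

/-- The code of the element given by a cut. -/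
def tcc (u : ℕ × ℕ) : Cd := ([[(true, u)]], [[]], [])

theorem evK_tcc (u : ℕ × ℕ) : D.evK (tcc u) = D.tc u := by
  have h1 : D.S (tcc u).1 = tt (D.cu u) := by
    show D.S [[(true, u)]] = _
    rw [S_cons, S_nil, add_zero, W_single]
  have h2 : D.S (tcc u).2.1 = 1 := D.S_one
  have hv : D.vld (tcc u) := by
    refine ⟨by rw [h2]; exact one_ne_zero, ?_⟩
    rw [h1, h2, div_one]
    right
    rw [tt_order]
    simpa [tcc] using (D.cu_pos u).le
  apply Subtype.ext
  rw [coe_evK, D.nz_of_vld hv, h1, h2, div_one]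
  rfl

/-- The computable test for membership in the prime ideal of a path, given enough of the path. -/
def tst (z : ℕ × List ℕ) : Prop := ∀ a ∈ (D.nz (cN z.1)).1, D.od (D.nz (cN z.1)).1 a →
  ∃ b ∈ (D.nz (cN z.1)).2.1, D.od (D.nz (cN z.1)).2.1 b ∧
    D.EEt (a ++ ng b, (z.2[st (a ++ ng b)]?).getD 0)

def long (z : ℕ × List ℕ) : Prop := ∀ a ∈ (D.nz (cN z.1)).1, ∀ b ∈ (D.nz (cN z.1)).2.1,
  st (a ++ ng b) < z.2.length

theorem cp_tst (hb : Computable D.b) (hT : Computable₂ D.T) : ComputablePred D.tst := by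
  have h1 := D.comp_nz hb hT
  have h2 := comp_cN
  have h3 := comp_st
  refine D.cp_test hb hT (A := fun z : ℕ × List ℕ => (D.nz (cN z.1)).1)
    (B := fun z : ℕ × List ℕ => (D.nz (cN z.1)).2.1)
    (ρ := fun z e => D.EEt (e, (z.2[st e]?).getD 0)) (by fun_prop) (by fun_prop) ?_
  refine RE.cp_comp (D.cp_EEt hb hT)
    (f := fun y : (ℕ × List ℕ) × Ex => (y.2, (y.1.2[st y.2]?).getD 0)) ?_
  refine Computable.pair (by fun_prop) ?_
  exact Computable.option_getD (by fun_prop) (Computable.const 0)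

theorem cp_long (hb : Computable D.b) (hT : Computable₂ D.T) : ComputablePred D.long := by
  have h1 := D.comp_nz hb hT
  have h2 := comp_cN
  have h3 := comp_st
  have h4 := prim_ng.to_comp
  refine cp_all_mem (p := fun (z : ℕ × List ℕ) a => ∀ b ∈ (D.nz (cN z.1)).2.1,
    st (a ++ ng b) < z.2.length) ?_ (by fun_prop)
  refine cp_all_mem (p := fun (y : (ℕ × List ℕ) × Ex) b => st (y.2 ++ ng b) < y.1.2.length) ?_
    (by fun_prop)
  exact RE.cp_lt (by fun_prop) (by fun_prop)

theorem tst_iff {x : ℕ → ℕ} (hx : D.IsPath x) (n : ℕ) (l : List ℕ)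
    (hl : ∀ k < l.length, ∃ v, l[k]? = some v ∧ x k = v) (hlong : D.long (n, l)) :
    D.tst (n, l) ↔ D.evK (cN n) ∈ D.pp hx := by
  rw [mem_pp, D.up_evK _ (D.EE x) (fun _ _ h => D.EE_mono h)]
  refine forall₂_congr fun a ha => forall_congr' fun _ => exists_congr fun b =>
    and_congr_right fun hb => and_congr_right fun _ => ?_
  obtain ⟨v, h1, h2⟩ := hl _ (hlong a ha b hb)
  show D.EEt (a ++ ng b, (l[st (a ++ ng b)]?).getD 0) ↔ _
  rw [h1, ← D.EEt_iff hx, h2]
  rfl

theorem exists_long (x : ℕ → ℕ) (n : ℕ) : ∃ l : List ℕ,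
    (∀ k < l.length, ∃ v, l[k]? = some v ∧ x k = v) ∧ D.long (n, l) := by
  obtain ⟨m, hm⟩ : ∃ m, ∀ a ∈ (D.nz (cN n)).1, ∀ b ∈ (D.nz (cN n)).2.1, st (a ++ ng b) < m := by
    refine ⟨((D.nz (cN n)).1.map fun a => ((D.nz (cN n)).2.1.map fun b =>
      st (a ++ ng b)).sum).sum + 1, fun a ha b hb => ?_⟩
    have h1 : st (a ++ ng b) ≤ ((D.nz (cN n)).2.1.map fun b => st (a ++ ng b)).sum :=
      List.single_le_sum (fun _ _ => Nat.zero_le _) _
        (List.mem_map_of_mem (f := fun b => st (a ++ ng b)) hb)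
    have h2 : ((D.nz (cN n)).2.1.map fun b => st (a ++ ng b)).sum ≤
        ((D.nz (cN n)).1.map fun a => ((D.nz (cN n)).2.1.map fun b => st (a ++ ng b)).sum).sum :=
      List.single_le_sum (fun _ _ => Nat.zero_le _) _
        (List.mem_map_of_mem (f := fun a => ((D.nz (cN n)).2.1.map fun b =>
          st (a ++ ng b)).sum) ha)
    omega
  refine ⟨(List.range m).map x, ?_, ?_⟩
  · intro k hk
    have hk' : k < m := by simpa using hk
    exact ⟨x k, by simp [hk'], rfl⟩
  · intro a ha b hb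
    simpa using hm a ha b hb

end Dat

theorem main {T : Set (List ℕ)} {g : List ℕ → ℕ} (hcl : ∀ σ τ, σ <+: τ → τ ∈ T → σ ∈ T)
    (hT : ComputablePred (· ∈ T)) (hgc : Computable g) (hg : ∀ σ i, σ ++ [i] ∈ T → i < g σ)
    (hne : (paths T).Nonempty) :
    ∃ (U : Set ℕ) (_ : CommRing U), ComputableRing U ∧ ∃ F : paths T → SpecSet U,
      Function.Bijective F ∧ ∀ f : paths T, TuringEquivalent (fnOracle f) (chi (F f)) := by
  classical
  set D : Dat := mkDat hcl hg hne with hD
  have hb : Computable D.b := comp_bf hgc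
  have hTc : Computable₂ D.T := comp_TT hT hgc
  obtain ⟨U, inst, ψ, rep, hU, hrep, h1, h2⟩ := D.exists_pres hb hTc
  refine ⟨U, inst, hU, ?_⟩
  -- the ideal belonging to a path
  let pI : ∀ x : ℕ → ℕ, D.IsPath x → Ideal U := fun x hx =>
    Ideal.comap (ψ.symm : U →+* D.Rq) ((D.pp hx).map (Ideal.Quotient.mk D.II))
  have hmem : ∀ (x : ℕ → ℕ) (hx : D.IsPath x) (z : D.Rt),
      ψ (Ideal.Quotient.mk D.II z) ∈ pI x hx ↔ z ∈ D.pp hx := by
    intro x hx z
    show ψ.symm (ψ (Ideal.Quotient.mk D.II z)) ∈ (D.pp hx).map (Ideal.Quotient.mk D.II) ↔ _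
    rw [RingEquiv.symm_apply_apply]
    exact Ideal.mem_quotient_iff_mem (D.II_le_pp hx)
  have hprime : ∀ (x : ℕ → ℕ) (hx : D.IsPath x), (pI x hx).IsPrime := by
    intro x hx
    have h3 := D.pp_prime hx
    have h4 : ((D.pp hx).map (Ideal.Quotient.mk D.II)).IsPrime :=
      Ideal.map_isPrime_of_surjective Ideal.Quotient.mk_surjective
        (by rw [Ideal.mk_ker]; exact D.II_le_pp hx)
    exact Ideal.IsPrime.comap _
  have hxf : ∀ f : paths T, D.IsPath fun j => posn (bf g) (pre f j) := fun f =>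
    isPath_of hcl hg hne f.2
  have hsurj : ∀ u : U, ∃ z : D.Rt, ψ (Ideal.Quotient.mk D.II z) = u := by
    intro u
    obtain ⟨z, hz⟩ := Ideal.Quotient.mk_surjective (ψ.symm u)
    exact ⟨z, by rw [hz, RingEquiv.apply_symm_apply]⟩
  let F : paths T → SpecSet U := fun f =>
    ⟨Subtype.val '' (pI _ (hxf f) : Set U), pI _ (hxf f), hprime _ _, rfl⟩
  refine ⟨F, ⟨?_, ?_⟩, ?_⟩
  · intro f f' h
    have h3 : (pI _ (hxf f) : Set U) = pI _ (hxf f') :=
      Set.image_injective.2 Subtype.val_injective (congrArg Subtype.val h)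
    have h4 : ∀ z, z ∈ D.pp (hxf f) ↔ z ∈ D.pp (hxf f') := by
      intro z
      rw [← hmem, ← hmem]
      exact Set.ext_iff.1 h3 _
    have h5 : ∀ j, posn (bf g) (pre f j) = posn (bf g) (pre f' j) := by
      intro j
      have h6 := h4 (D.tc (posn (bf g) (pre f j), j))
      have h7 := h4 (D.tc (posn (bf g) (pre f' j), j))
      rw [D.tc_mem, D.tc_mem] at h6 h7
      simp only [lt_irrefl, false_iff, iff_false] at h6 h7
      omega
    apply Subtype.ext
    funext n
    have h6 : pre f (n + 1) = pre f' (n + 1) :=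
      posn_inj (bdd_of_mem hcl hg (f.2 _)) (bdd_of_mem hcl hg (f'.2 _))
        (by rw [pre_length, pre_length]) (h5 _)
    rw [pre_succ, pre_succ] at h6
    have h7 := (List.append_inj' h6 rfl).2
    simpa using h7
  · rintro ⟨S, p, hp, rfl⟩
    let φ : D.Rt →+* U := (ψ : D.Rq →+* U).comp (Ideal.Quotient.mk D.II)
    have hq : (Ideal.comap φ p).IsPrime := Ideal.IsPrime.comap _
    have hI : D.II ≤ Ideal.comap φ p := by
      intro z hz
      show ψ (Ideal.Quotient.mk D.II z) ∈ p
      rw [Ideal.Quotient.eq_zero_iff_mem.2 hz, map_zero]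
      exact p.zero_mem
    obtain ⟨x, hx, hqx⟩ := D.exists_path _ hq hI
    obtain ⟨f, hf, hxe⟩ := of_isPath hcl hg hne hx
    refine ⟨⟨f, hf⟩, ?_⟩
    apply Subtype.ext
    show Subtype.val '' (pI _ (hxf ⟨f, hf⟩) : Set U) = Subtype.val '' (p : Set U)
    congr 1
    ext u
    obtain ⟨z, rfl⟩ := hsurj u
    have h3 := hmem _ (hxf ⟨f, hf⟩) z
    have h4 : z ∈ D.pp (hxf ⟨f, hf⟩) ↔ z ∈ D.pp hx := by
      subst hxe
      exact Iff.rfl
    have h5 : z ∈ Ideal.comap φ p ↔ z ∈ D.pp hx := by rw [hqx]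
    exact (h3.trans h4).trans h5.symm
  · intro f
    set x : ℕ → ℕ := fun j => posn (bf g) (pre f j) with hx
    have hpx := hxf f
    set S : Set ℕ := (F f : Set ℕ) with hS
    have hmS : ∀ n, rep n ∈ S ↔ D.evK (Dat.cN n) ∈ D.pp hpx := by
      intro n
      rw [← hmem, hS]
      constructor
      · rintro ⟨u, hu, hun⟩
        have h3 : u = ψ (D.evq (Dat.cN n)) := Subtype.ext (by rw [h1, hun])
        rw [h3] at hu
        exact hu
      · intro h
        exact ⟨ψ (D.evq (Dat.cN n)), h, h1 n⟩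
    have hmS' : ∀ n, n ∈ S ↔ n ∈ U ∧ D.evK (Dat.cN n) ∈ D.pp hpx := by
      intro n
      constructor
      · rintro ⟨u, hu, rfl⟩
        refine ⟨u.2, ?_⟩
        rw [← hmem]
        have h3 := h2 u
        rw [Dat.evq] at h3
        rw [h3]; exact hu
      · rintro ⟨hn, h⟩
        rw [← hmem] at h
        have h3 := h2 ⟨n, hn⟩
        rw [Dat.evq] at h3
        rw [h3] at h
        exact ⟨⟨n, hn⟩, h, rfl⟩
    constructor
    · -- the path from the ideal
      refine turingReducible_fun_iff.2 ?_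
      have hcode : Computable fun u : ℕ × ℕ => rep (encode (Dat.tcc u)) := by
        refine hrep.comp (Computable.encode.comp ?_)
        exact Computable.pair (RE.ccons (RE.ccons (by fun_prop) (Computable.const _))
          (Computable.const _)) (Computable.const _)
      have hlt : ∀ a i, rep (encode (Dat.tcc (a, i))) ∈ S ↔ x i < a := by
        intro a i
        rw [hmS, Dat.cN_encode, D.evK_tcc, D.tc_mem]
      have hxg : REIn S fun p : ℕ × ℕ => x p.1 = p.2 := by
        have h3 : REIn S fun p : ℕ × ℕ => rep (encode (Dat.tcc (p.2, p.1))) ∉ S ∧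
            rep (encode (Dat.tcc (p.2 + 1, p.1))) ∈ S := by
          refine REIn.and (REIn.not_mem ?_) (REIn.mem ?_)
          · exact hcode.comp (f := fun u : ℕ × ℕ => rep (encode (Dat.tcc u)))
              (g := fun p : ℕ × ℕ => (p.2, p.1)) (by fun_prop)
          · exact hcode.comp (f := fun u : ℕ × ℕ => rep (encode (Dat.tcc u)))
              (g := fun p : ℕ × ℕ => (p.2 + 1, p.1)) (by fun_prop)
        refine h3.of_eq fun p => ?_
        rw [hlt, hlt]; omega
      have hbf := comp_bf hgc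
      have h3 : REIn S fun p : ℕ × ℕ => ∃ q : ℕ × ℕ, x (p.1 + 1) = q.1 ∧ x p.1 = q.2 ∧
          q.2 * bf g p.1 + p.2 = q.1 := by
        refine REIn.ex (S := fun (p : ℕ × ℕ) (q : ℕ × ℕ) => x (p.1 + 1) = q.1 ∧ x p.1 = q.2 ∧
          q.2 * bf g p.1 + p.2 = q.1) ?_
        refine REIn.and ?_ (REIn.and ?_ (REIn.of_re ?_))
        · exact hxg.comp (f := fun z : (ℕ × ℕ) × (ℕ × ℕ) => (z.1.1 + 1, z.2.1)) (by fun_prop)
        · exact hxg.comp (f := fun z : (ℕ × ℕ) × (ℕ × ℕ) => (z.1.1, z.2.2)) (by fun_prop)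
        · exact RE.eq (by fun_prop) (by fun_prop)
      refine h3.of_eq fun p => ?_
      have h4 : x (p.1 + 1) = x p.1 * bf g p.1 + (f : ℕ → ℕ) p.1 := by
        show posn (bf g) (pre f (p.1 + 1)) = _
        rw [pre_succ, posn_append, pre_length]
      constructor
      · rintro ⟨q, h5, h6, h7⟩
        rw [← h5, ← h6, h4] at h7
        omega
      · intro h5
        exact ⟨(x (p.1 + 1), x p.1), rfl, rfl, by rw [h4, h5]⟩
    · -- the ideal from the path
      refine TuringReducible.trans ?_ (gph_red f)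
      refine turingReducible_iff.2 ?_
      have hbf := comp_bf hgc
      have hps := comp_posn hbf
      have hxg : REIn (gph f) fun p : ℕ × ℕ => x p.1 = p.2 := by
        have h3 : REIn (gph f) fun p : ℕ × ℕ => ∃ l : List ℕ, l.length = p.1 ∧
            (∀ k < l.length, ∃ v, l[k]? = some v ∧ Nat.pair k v ∈ gph f) ∧
              posn (bf g) l = p.2 := by
          refine REIn.ex (S := fun (p : ℕ × ℕ) (l : List ℕ) => l.length = p.1 ∧
            (∀ k < l.length, ∃ v, l[k]? = some v ∧ Nat.pair k v ∈ gph f) ∧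
              posn (bf g) l = p.2) ?_
          refine REIn.and (REIn.of_re (RE.eq (by fun_prop) (by fun_prop)))
            (REIn.and ?_ (REIn.of_re (RE.eq (by fun_prop) (by fun_prop))))
          refine REIn.all_lt (S := fun (z : (ℕ × ℕ) × List ℕ) k => ∃ v, z.2[k]? = some v ∧
            Nat.pair k v ∈ gph f) ?_ (by fun_prop)
          refine REIn.ex (S := fun (z : ((ℕ × ℕ) × List ℕ) × ℕ) (v : ℕ) =>
            z.1.2[z.2]? = some v ∧ Nat.pair z.2 v ∈ gph f) ?_
          refine REIn.and (REIn.of_re (RE.eq (by fun_prop) (by fun_prop))) (REIn.mem ?_)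
          fun_prop
        refine h3.of_eq fun p => ?_
        constructor
        · rintro ⟨l, h4, h5, h6⟩
          have h7 : l = pre f p.1 := by
            apply List.ext_getElem?
            intro k
            by_cases hk : k < l.length
            · obtain ⟨v, h8, h9⟩ := h5 k hk
              rw [h8]
              have h10 : k < p.1 := by omega
              rw [mem_gph] at h9
              simp [pre, h10, h9]
            · rw [List.getElem?_eq_none (by omega), List.getElem?_eq_none]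
              rw [pre_length]; omega
          rw [← h6, h7]
        · intro h4
          refine ⟨pre f p.1, pre_length _ _, ?_, h4⟩
          intro k hk
          rw [pre_length] at hk
          exact ⟨(f : ℕ → ℕ) k, by simp [pre, hk], mem_gph.2 rfl⟩
      have hlg : REIn (gph f) fun z : ℕ × List ℕ =>
          (∀ k < z.2.length, ∃ v, z.2[k]? = some v ∧ x k = v) := by
        refine REIn.all_lt (S := fun (z : ℕ × List ℕ) k => ∃ v, z.2[k]? = some v ∧ x k = v) ?_
          (by fun_prop)
        refine REIn.ex (S := fun (z : (ℕ × List ℕ) × ℕ) (v : ℕ) =>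
            z.1.2[z.2]? = some v ∧ x z.2 = v) ?_
        refine REIn.and (REIn.of_re (RE.eq (by fun_prop) (by fun_prop))) ?_
        exact hxg.comp (f := fun y : ((ℕ × List ℕ) × ℕ) × ℕ => (y.1.2, y.2)) (by fun_prop)
      have hUc := hU.univ
      have hts := D.cp_tst hb hTc
      have hlo := D.cp_long hb hTc
      constructor
      · have h3 : REIn (gph f) fun n : ℕ => n ∈ U ∧ ∃ l : List ℕ,
            (∀ k < l.length, ∃ v, l[k]? = some v ∧ x k = v) ∧ D.long (n, l) ∧ D.tst (n, l) := by
          refine REIn.and (REIn.of_re hUc.to_re) ?_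
          refine REIn.ex (S := fun (n : ℕ) (l : List ℕ) =>
            (∀ k < l.length, ∃ v, l[k]? = some v ∧ x k = v) ∧ D.long (n, l) ∧ D.tst (n, l)) ?_
          exact REIn.and hlg (REIn.and (REIn.of_re hlo.to_re) (REIn.of_re hts.to_re))
        refine h3.of_eq fun n => ?_
        rw [hmS']
        refine and_congr_right fun _ => ?_
        constructor
        · rintro ⟨l, h4, h5, h6⟩
          exact (D.tst_iff hpx n l h4 h5).1 h6
        · intro h4
          obtain ⟨l, h5, h6⟩ := D.exists_long x n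
          exact ⟨l, h5, h6, (D.tst_iff hpx n l h5 h6).2 h4⟩
      · have h3 : REIn (gph f) fun n : ℕ => n ∉ U ∨ ∃ l : List ℕ,
            (∀ k < l.length, ∃ v, l[k]? = some v ∧ x k = v) ∧ D.long (n, l) ∧ ¬ D.tst (n, l) := by
          refine REIn.or (REIn.of_re hUc.not.to_re) ?_
          refine REIn.ex (S := fun (n : ℕ) (l : List ℕ) =>
            (∀ k < l.length, ∃ v, l[k]? = some v ∧ x k = v) ∧ D.long (n, l) ∧ ¬ D.tst (n, l)) ?_
          exact REIn.and hlg (REIn.and (REIn.of_re hlo.to_re) (REIn.of_re hts.not.to_re))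
        refine h3.of_eq fun n => ?_
        rw [hmS', not_and_or]
        refine or_congr_right ?_
        constructor
        · rintro ⟨l, h4, h5, h6⟩
          exact fun h => h6 ((D.tst_iff hpx n l h4 h5).2 h)
        · intro h4
          obtain ⟨l, h5, h6⟩ := D.exists_long x n
          exact ⟨l, h5, h6, fun h => h4 ((D.tst_iff hpx n l h5 h6).1 h)⟩

end Pool.Agent.H454R3.Spec
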