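import Pool.Agent.H454R3.Spec.Weights

/-!
The value group: germs of integer sequences along a nonprincipal ultrafilter.
-/

namespace Pool.Agent.H454R3.Spec

open Filter

/-- The value group. -/
abbrev Gam := Filter.Germ (hyperfilter ℕ : Filter ℕ) ℤ

/-- Codes of exponents: formal sums of cuts with signs. -/
abbrev Ex := List (Bool × ℕ × ℕ)

def sg (e : Ex) : List (ℤ × ℕ × ℕ) := e.map fun x => ((if x.1 = true then 1 else -1 : ℤ), x.2)

def ng (e : Ex) : Ex := e.map fun x => (!x.1, x.2)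

/-- A stage from which on signs are stable. -/
def st (e : Ex) : ℕ := (e.map fun x => x.2.2 + 1).sum + 3

theorem nrm_sg (e : Ex) : nrm (sg e) = e.length := by
  induction e with
  | nil => rfl
  | cons x e ih =>
    simp only [sg, nrm, List.map_cons, List.sum_cons, List.length_cons] at ih ⊢
    rw [ih]
    split <;> simp [Nat.add_comm]

theorem le_st (e : Ex) : ∀ y ∈ sg e, y.2.2 ≤ st e := by
  intro y hy
  obtain ⟨x, hx, rfl⟩ := List.mem_map.1 hy
  have h : x.2.2 + 1 ≤ (e.map fun x => x.2.2 + 1).sum :=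
    List.single_le_sum (fun _ _ => Nat.zero_le _) _ (List.mem_map_of_mem (f := fun x => x.2.2 + 1) hx)
  show x.2.2 ≤ _
  rw [st]; omega

theorem length_le_st (e : Ex) : e.length + 3 ≤ st e := by
  rw [st]
  have : e.length ≤ (e.map fun x => x.2.2 + 1).sum := by
    induction e with
    | nil => simp
    | cons x e ih => simp only [List.map_cons, List.sum_cons, List.length_cons]; omega
  omega

theorem pow_st (e : Ex) : 6 * nrm (sg e) + 2 ≤ 2 ^ st e := by
  have h1 := length_le_st e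
  have h2 : 2 ^ (e.length + 3) ≤ 2 ^ st e := Nat.pow_le_pow_right (by norm_num) h1
  have h3 : e.length + 1 ≤ 2 ^ e.length := Nat.lt_two_pow_self
  rw [nrm_sg]
  rw [pow_add] at h2
  omega

theorem germ_ev {p : ℕ → Prop} {s0 : ℕ} (h : ∀ s ≥ s0, p s) : ∀ᶠ s in (hyperfilter ℕ : Filter ℕ), p s :=
  (eventually_atTop.2 ⟨s0, h⟩).filter_mono Nat.hyperfilter_le_atTop

theorem germ_ex {p : ℕ → Prop} (h : ∀ᶠ s in (hyperfilter ℕ : Filter ℕ), p s) (s0 : ℕ) :
    ∃ s ≥ s0, p s := by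
  have h1 := h.and (germ_ev (p := fun s => s0 ≤ s) (s0 := s0) fun s hs => hs)
  obtain ⟨s, h2, h3⟩ := h1.exists
  exact ⟨s, h3, h2⟩

namespace Dat

variable (D : Dat)

/-- The value of an exponent. -/
noncomputable def W (e : Ex) : Gam := ((fun s => D.Wt s (sg e) : ℕ → ℤ) : Gam)

/-- The value of a cut. -/
noncomputable def cu (u : ℕ × ℕ) : Gam := ((fun s => 2 ^ D.r s u : ℕ → ℤ) : Gam)

theorem W_single (u : ℕ × ℕ) : D.W [(true, u)] = D.cu u := by
  rw [W, cu]; congr 1; funext s; simp [sg, Wt]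

@[simp] theorem W_nil : D.W [] = 0 := rfl

theorem W_append (e e' : Ex) : D.W (e ++ e') = D.W e + D.W e' := by
  rw [W, W, W, ← Germ.coe_add]; congr 1; funext s
  simp [sg, Wt]

theorem W_ng (e : Ex) : D.W (ng e) = - D.W e := by
  induction e with
  | nil => simp [ng]
  | cons x e ih =>
    have h1 : D.W (x :: e) = D.W [x] + D.W e := D.W_append [x] e
    have h2 : D.W (ng (x :: e)) = D.W [(!x.1, x.2)] + D.W (ng e) := D.W_append [(!x.1, x.2)] (ng e)
    have h3 : D.W [(!x.1, x.2)] = - D.W [x] := by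
      rw [W, W, ← Germ.coe_neg]; congr 1; funext s
      obtain ⟨b, u⟩ := x
      cases b <;> simp [sg, Wt]
    rw [h1, h2, h3, ih]; abel

theorem W_cases (e : Ex) :
    ((∀ s ≥ st e, 0 < D.Wt s (sg e)) ∧ 0 < D.W e) ∨
      ((∀ s ≥ st e, D.Wt s (sg e) = 0) ∧ D.W e = 0) ∨
      ((∀ s ≥ st e, D.Wt s (sg e) < 0) ∧ D.W e < 0) := by
  have h0 : nrm (sg e) < 2 ^ st e := by have := pow_st e; omega
  rcases D.sgn_stable' (st e) (sg e) (le_st e) h0 with h | h | h
  · exact Or.inl ⟨h, Germ.coe_lt.2 (germ_ev h)⟩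
  · exact Or.inr (Or.inl ⟨h, Germ.coe_eq.2 (germ_ev h)⟩)
  · exact Or.inr (Or.inr ⟨h, Germ.coe_lt.2 (germ_ev h)⟩)

theorem W_nonneg_iff (e : Ex) : 0 ≤ D.W e ↔ 0 ≤ D.Wt (st e) (sg e) := by
  rcases D.W_cases e with ⟨h1, h2⟩ | ⟨h1, h2⟩ | ⟨h1, h2⟩
  · exact iff_of_true h2.le (h1 _ le_rfl).le
  · exact iff_of_true h2.ge (h1 _ le_rfl).ge
  · exact iff_of_false (not_le.2 h2) (not_le.2 (h1 _ le_rfl))

theorem W_zero_iff (e : Ex) : D.W e = 0 ↔ D.Wt (st e) (sg e) = 0 := by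
  rcases D.W_cases e with ⟨h1, h2⟩ | ⟨h1, h2⟩ | ⟨h1, h2⟩
  · exact iff_of_false h2.ne' (h1 _ le_rfl).ne'
  · exact iff_of_true h2 (h1 _ le_rfl)
  · exact iff_of_false h2.ne (h1 _ le_rfl).ne

theorem cu_pos (u : ℕ × ℕ) : 0 < D.cu u :=
  Germ.coe_lt.2 (germ_ev (s0 := 0) fun s _ => by positivity)

theorem cu_mono {u v : ℕ × ℕ} (h : D.cle u v) : D.cu u ≤ D.cu v :=
  Germ.coe_le.2 (germ_ev (s0 := 0) fun s _ => pow_le_pow_right₀ (by norm_num) (D.r_mono h s))

theorem cu_zero (i : ℕ) : D.cu (0, i) = 1 := by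
  rw [cu]
  have : (fun s => 2 ^ D.r s (0, i) : ℕ → ℤ) = fun _ => 1 := by
    funext s
    have h : D.r s (0, i) = 0 := by
      refine Finset.sum_eq_zero fun j _ => ?_
      have : D.cnt j (0, i) = 0 := by
        rw [cnt, Finset.card_eq_zero]
        refine Finset.filter_eq_empty_iff.2 fun τ _ h => ?_
        have h1 : (τ + 1) * D.B i ≤ 0 * D.B j := h.2
        have := D.B_pos i
        nlinarith
      rw [this, mul_zero]
    rw [h, pow_zero]
  rw [this]; rfl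

/-- The value above which everything is zero. -/
noncomputable def Om : Gam := D.cu (1, 0)

def big (γ : Gam) : Prop := ∃ N : ℕ, D.Om - N ≤ 3 * γ

theorem big_mono {γ δ : Gam} (h : γ ≤ δ) (h1 : D.big γ) : D.big δ := by
  obtain ⟨N, hN⟩ := h1
  exact ⟨N, hN.trans (mul_le_mul_of_nonneg_left h (by norm_num))⟩

theorem big_sub {γ : Gam} (h : D.big γ) (N : ℕ) : D.big (γ - N) := by
  obtain ⟨M, hM⟩ := h
  refine ⟨M + 3 * N, ?_⟩
  push_cast
  linarith

theorem big_cases (e : Ex) :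
    (D.Om ≤ 3 * D.W e ∧ 2 ^ D.r (st e) (1, 0) ≤ 3 * D.Wt (st e) (sg e)) ∨
      (¬ D.big (D.W e) ∧ ¬ (2 ^ D.r (st e) (1, 0) ≤ 3 * D.Wt (st e) (sg e))) := by
  rcases D.top (st e) (sg e) (le_st e) (pow_st e) with h | h
  · left
    refine ⟨?_, h _ le_rfl⟩
    have h3 : (3 : Gam) * D.W e = ((fun s => 3 * D.Wt s (sg e) : ℕ → ℤ) : Gam) := rfl
    rw [h3, Om, cu]
    exact Germ.coe_le.2 (germ_ev h)
  · right
    constructor
    · rintro ⟨N, hN⟩
      have h3 : (3 : Gam) * D.W e = ((fun s => 3 * D.Wt s (sg e) : ℕ → ℤ) : Gam) := rfl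
      have h4 : D.Om - N = ((fun s => 2 ^ D.r s (1, 0) - (N : ℤ) : ℕ → ℤ) : Gam) := rfl
      rw [h3, h4] at hN
      obtain ⟨s, hs, h5⟩ := germ_ex (Germ.coe_le.1 hN) (max (st e) (2 * N + 1))
      have h6 := h s (le_trans (le_max_left _ _) hs)
      have h7 : 2 * N + 1 ≤ s := le_trans (le_max_right _ _) hs
      have h8 : (s : ℤ) < 2 ^ s := by exact_mod_cast Nat.lt_two_pow_self
      have h9 : (2 * N + 1 : ℤ) ≤ s := by exact_mod_cast h7
      linarith
    · have h3 := h _ le_rfl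
      have : (0 : ℤ) < 2 ^ st e := by positivity
      intro h4
      linarith

theorem big_iff (e : Ex) : D.big (D.W e) ↔ 2 ^ D.r (st e) (1, 0) ≤ 3 * D.Wt (st e) (sg e) := by
  rcases D.big_cases e with ⟨h1, h2⟩ | ⟨h1, h2⟩
  · exact iff_of_true ⟨0, by simpa using h1⟩ h2
  · exact iff_of_false h1 h2

theorem big_le {e : Ex} (h : D.big (D.W e)) : D.Om ≤ 3 * D.W e := by
  rcases D.big_cases e with ⟨h1, h2⟩ | ⟨h1, h2⟩
  · exact h1
  · exact absurd h h1

/-- The values belonging to the prime ideal given by the path `x`. -/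
def EE (x : ℕ → ℕ) (γ : Gam) : Prop := ∃ i M : ℕ, D.cu (x i + 1, i) ≤ M * γ

variable {x : ℕ → ℕ}

theorem path_lt (hx : D.IsPath x) (i j C : ℕ) : C * D.cu (x i, i) < D.cu (x j + 1, j) := by
  have h1 : (C : Gam) * D.cu (x i, i) = ((fun s => (C : ℤ) * 2 ^ D.r s (x i, i) : ℕ → ℤ) : Gam) :=
    rfl
  rw [h1, cu]
  refine Germ.coe_lt.2 (germ_ev (s0 := max (max i j) C) fun s hs => ?_)
  exact IsPath.lt D hx i j C s (le_trans (le_trans (le_max_left _ _) (le_max_left _ _)) hs)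
    (le_trans (le_trans (le_max_right _ _) (le_max_left _ _)) hs)
    (lt_of_le_of_lt (le_trans (le_max_right _ _) hs) Nat.lt_two_pow_self)

theorem EE_cases (hx : D.IsPath x) (e : Ex) :
    (D.cu (x (st e) + 1, st e) ≤ 2 * D.W e ∧
        2 ^ D.r (st e) (x (st e) + 1, st e) ≤ 2 * D.Wt (st e) (sg e)) ∨
      ((∃ C : ℕ, D.W e ≤ C * D.cu (x (st e), st e)) ∧ ¬ D.EE x (D.W e) ∧
        ¬ (2 ^ D.r (st e) (x (st e) + 1, st e) ≤ 2 * D.Wt (st e) (sg e))) := by
  have h2 : 2 * nrm (sg e) < 2 ^ st e := by have := pow_st e; omega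
  rcases IsPath.dich D hx (st e) (sg e) (le_st e) h2 with h | h
  · left
    refine ⟨?_, h _ le_rfl⟩
    have h3 : (2 : Gam) * D.W e = ((fun s => 2 * D.Wt s (sg e) : ℕ → ℤ) : Gam) := rfl
    rw [h3, cu]
    exact Germ.coe_le.2 (germ_ev h)
  · right
    have h4 : D.W e ≤ (nrm (sg e) : ℕ) * D.cu (x (st e), st e) := by
      have h3 : ((nrm (sg e) : ℕ) : Gam) * D.cu (x (st e), st e) =
        ((fun s => (nrm (sg e) : ℤ) * 2 ^ D.r s (x (st e), st e) : ℕ → ℤ) : Gam) := rfl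
      rw [h3, W]
      exact Germ.coe_le.2 (germ_ev h)
    have h5 : ¬ D.EE x (D.W e) := by
      rintro ⟨i, M, hM⟩
      have h6 : (M : Gam) * D.W e ≤ ((M * nrm (sg e) : ℕ) : Gam) * D.cu (x (st e), st e) := by
        push_cast
        rw [mul_assoc]
        exact mul_le_mul_of_nonneg_left h4 (Nat.cast_nonneg M)
      exact absurd (lt_of_le_of_lt (hM.trans h6) (D.path_lt hx (st e) i _)) (lt_irrefl _)
    refine ⟨⟨_, h4⟩, h5, ?_⟩
    intro h6
    have h7 := h _ le_rfl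
    have h8 := D.r_sep (IsPath.cnt_lt D hx (j := st e) (s := st e) (u := (x (st e), st e))
      (v := (x (st e) + 1, st e)) le_rfl le_rfl le_rfl) (le_refl (st e))
    have h9 : (2 : ℤ) * (nrm (sg e) * 2 ^ D.r (st e) (x (st e), st e)) <
        2 ^ D.r (st e) (x (st e) + 1, st e) := by
      calc (2 : ℤ) * (nrm (sg e) * 2 ^ D.r (st e) (x (st e), st e))
          = (2 * nrm (sg e) : ℤ) * 2 ^ D.r (st e) (x (st e), st e) := by ring
        _ < 2 ^ st e * 2 ^ D.r (st e) (x (st e), st e) :=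
            mul_lt_mul_of_pos_right (by exact_mod_cast h2) (by positivity)
        _ = 2 ^ (D.r (st e) (x (st e), st e) + st e) := by rw [pow_add]; ring
        _ ≤ _ := pow_le_pow_right₀ (by norm_num) h8
    linarith

theorem EE_iff (hx : D.IsPath x) (e : Ex) : D.EE x (D.W e) ↔
    2 ^ D.r (st e) (x (st e) + 1, st e) ≤ 2 * D.Wt (st e) (sg e) := by
  rcases D.EE_cases hx e with ⟨h1, h2⟩ | ⟨h0, h1, h2⟩
  · exact iff_of_true ⟨st e, 2, by simpa using h1⟩ h2
  · exact iff_of_false h1 h2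

theorem EE_mono {γ δ : Gam} (h : γ ≤ δ) (h1 : D.EE x γ) : D.EE x δ := by
  obtain ⟨i, M, hN⟩ := h1
  exact ⟨i, M, hN.trans (mul_le_mul_of_nonneg_left h (Nat.cast_nonneg M))⟩

theorem EE_sub (hx : D.IsPath x) {γ : Gam} (h : D.EE x γ) (N : ℕ) : D.EE x (γ - N) := by
  obtain ⟨i, M, hM⟩ := h
  refine ⟨i, 2 * M, ?_⟩
  have h1 := D.path_lt hx 0 i (2 * M * N)
  have h2 : x 0 = 0 := by
    have := (hx 0).1
    have h3 : D.B 0 = 1 := rfl
    omega
  rw [h2, D.cu_zero, mul_one] at h1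
  push_cast at h1 ⊢
  linarith

theorem EE_of_big (hx : D.IsPath x) {e : Ex} (h : D.big (D.W e)) : D.EE x (D.W e) := by
  refine ⟨0, 3, ?_⟩
  have h2 : x 0 = 0 := by
    have := (hx 0).1
    have h3 : D.B 0 = 1 := rfl
    omega
  rw [h2]
  have := D.big_le h
  simpa [Om] using this

theorem not_EE_zero : ¬ D.EE x 0 := by
  rintro ⟨i, M, hM⟩
  rw [mul_zero] at hM
  exact absurd (D.cu_pos (x i + 1, i)) (not_lt.2 hM)

theorem EE_cut (i : ℕ) : D.EE x (D.cu (x i + 1, i)) := ⟨i, 1, by simp⟩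

theorem not_EE_cut (hx : D.IsPath x) (i : ℕ) : ¬ D.EE x (D.cu (x i, i)) := by
  rintro ⟨j, M, hM⟩
  exact absurd (D.path_lt hx i j M) (not_lt.2 hM)

/-- Merged cuts have comparable values. -/
theorem merge {i a : ℕ} (ha : a < D.B i) (hT : ¬ D.T i a = true) :
    ∃ M : ℕ, D.cu (a + 1, i) ≤ M * D.cu (a, i) := by
  have h1 : D.cset i (a + 1, i) = D.cset i (a, i) := by
    ext τ
    simp only [cset, Finset.mem_filter]
    refine and_congr_right fun h2 => and_congr_right fun h3 => ?_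
    have hp := D.B_pos i
    show (τ + 1) * D.B i ≤ (a + 1) * D.B i ↔ (τ + 1) * D.B i ≤ a * D.B i
    rw [Nat.mul_le_mul_right_iff hp, Nat.mul_le_mul_right_iff hp]
    have h4 : τ ≠ a := by rintro rfl; exact hT h3
    omega
  have h2 : D.cnt i (a + 1, i) = D.cnt i (a, i) := by rw [cnt, cnt, h1]
  refine ⟨2 ^ D.r i (a + 1, i), ?_⟩
  have h3 : ((2 ^ D.r i (a + 1, i) : ℕ) : Gam) * D.cu (a, i) =
      ((fun s => (2 ^ D.r i (a + 1, i) : ℕ) * 2 ^ D.r s (a, i) : ℕ → ℤ) : Gam) := rfl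
  rw [h3, cu]
  refine Germ.coe_le.2 (germ_ev (s0 := i) fun s hs => ?_)
  have h4 : D.r s (a + 1, i) + D.r i (a, i) = D.r s (a, i) + D.r i (a + 1, i) :=
    D.r_tie (u := (a + 1, i)) (v := (a, i)) le_rfl le_rfl h2 hs
  push_cast
  rw [← pow_add]
  exact pow_le_pow_right₀ (by norm_num) (by omega)

end Dat

end Pool.Agent.H454R3.Spec
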