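import Pool.Agent.H454R3.Spec.Code

/-!
The ring given by the codes and its presentation on a computable set of natural numbers.
-/

namespace Pool.Agent.H454R3.Spec

open Filter Encodable
open Pool.Agent.Helper578.JD

/-- The universe `U` is a computable set and the ring operations of `U` are computable. -/
structure ComputableRing (U : Set ℕ) [CommRing U] : Prop where
  univ : ComputablePred fun n : ℕ => n ∈ U
  add : ∃ f : ℕ → ℕ → ℕ, Computable₂ f ∧ ∀ x y : U, ((x + y : U) : ℕ) = f x y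
  mul : ∃ f : ℕ → ℕ → ℕ, Computable₂ f ∧ ∀ x y : U, ((x * y : U) : ℕ) = f x y
  neg : ∃ f : ℕ → ℕ, Computable f ∧ ∀ x : U, ((-x : U) : ℕ) = f x

theorem pres {R : Type} [CommRing R] (ev : ℕ → R) (hs : Function.Surjective ev)
    (add mul : ℕ → ℕ → ℕ) (neg : ℕ → ℕ) (hadd : Computable₂ add) (hmul : Computable₂ mul)
    (hneg : Computable neg) (eadd : ∀ m n, ev (add m n) = ev m + ev n)
    (emul : ∀ m n, ev (mul m n) = ev m * ev n) (eneg : ∀ n, ev (neg n) = - ev n)
    (heq : ComputablePred fun p : ℕ × ℕ => ev p.1 = ev p.2) :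
    ∃ (U : Set ℕ) (_ : CommRing U) (ψ : R ≃+* U) (rep : ℕ → ℕ), ComputableRing U ∧
      Computable rep ∧ (∀ n, (ψ (ev n) : ℕ) = rep n) ∧ ∀ n : U, ψ (ev n) = n := by
  classical
  have hex : ∀ n, ∃ m, ev m = ev n := fun n => ⟨n, rfl⟩
  set rep : ℕ → ℕ := fun n => Nat.find (hex n) with hrep
  have r1 : ∀ n, ev (rep n) = ev n := fun n => Nat.find_spec (hex n)
  have r2 : ∀ m n, ev m = ev n → rep m = rep n := by
    intro m n h
    refine le_antisymm (Nat.find_min' _ ?_) (Nat.find_min' _ ?_)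
    · show ev (rep n) = ev m
      rw [r1, h]
    · show ev (rep m) = ev n
      rw [r1, h]
  have hrc : Computable rep := by
    refine RE.computable_of_graph ?_
    have h1 : REPred fun p : ℕ × ℕ => ev p.2 = ev p.1 ∧ ∀ k < p.2, ev k ≠ ev p.1 := by
      refine RE.and (RE.cp_comp heq (f := fun p : ℕ × ℕ => (p.2, p.1)) (by fun_prop)).to_re ?_
      refine RE.all_lt (p := fun (p : ℕ × ℕ) k => ev k ≠ ev p.1) ?_ (by fun_prop)
      exact (RE.cp_comp heq (f := fun p : (ℕ × ℕ) × ℕ => (p.2, p.1.1)) (by fun_prop)).not.to_re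
    refine h1.of_eq fun p => ?_
    show _ ↔ Nat.find (hex p.1) = p.2
    rw [Nat.find_eq_iff]
  set U : Set ℕ := {n | rep n = n} with hU
  have rU : ∀ n, rep n ∈ U := fun n => r2 _ _ (r1 n)
  set e0 : U → R := fun n => ev n with he0
  have hbij : Function.Bijective e0 := by
    constructor
    · intro m n h
      apply Subtype.ext
      have h1 := r2 _ _ h
      rw [← m.2, ← n.2]; exact h1
    · intro r
      obtain ⟨n, hn⟩ := hs r
      exact ⟨⟨rep n, rU n⟩, by show ev (rep n) = r; rw [r1, hn]⟩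
  let e : U ≃ R := Equiv.ofBijective e0 hbij
  letI inst : CommRing U := e.commRing
  have key : ∀ n, ((e.symm (ev n) : U) : ℕ) = rep n := by
    intro n
    have h1 : e.symm (ev n) = ⟨rep n, rU n⟩ := by
      rw [Equiv.symm_apply_eq]
      exact (r1 n).symm
    rw [h1]
  have ein : ∀ x : U, e x = ev x := fun x => rfl
  refine ⟨U, inst, (Equiv.ringEquiv e).symm, rep, ⟨RE.cp_eq hrc Computable.id, ?_, ?_, ?_⟩, hrc,
    key, ?_⟩
  · refine ⟨fun m n => rep (add m n), hrc.comp hadd, fun x y => ?_⟩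
    show ((e.symm (e x + e y) : U) : ℕ) = _
    rw [ein, ein, ← eadd, key]
  · refine ⟨fun m n => rep (mul m n), hrc.comp hmul, fun x y => ?_⟩
    show ((e.symm (e x * e y) : U) : ℕ) = _
    rw [ein, ein, ← emul, key]
  · refine ⟨fun n => rep (neg n), hrc.comp hneg, fun x => ?_⟩
    show ((e.symm (- e x) : U) : ℕ) = _
    rw [ein, ← eneg, key]
  · intro n
    show e.symm (ev n) = n
    rw [← ein, Equiv.symm_apply_apply]

/-- Codes of elements: numerator, denominator, and a bound. -/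
abbrev Cd := List Ex × List Ex × List ℕ

theorem order_div {z w : KK} (hz : z ≠ 0) (hw : w ≠ 0) : (z / w).order = z.order - w.order := by
  have h := HahnSeries.order_mul (div_ne_zero hz hw) hw
  rw [div_mul_cancel₀ _ hw] at h
  rw [h]; abel

namespace Dat

variable (D : Dat)

theorem up_div (ρ : Gam → Prop) {A B : List Ex} (hB : D.S B ≠ 0) :
    up ρ (D.S A / D.S B) ↔ (D.S A = 0 ∨ ρ ((D.S A).order - (D.S B).order)) := by
  by_cases hA : D.S A = 0
  · rw [hA, zero_div]
    exact iff_of_true (Or.inl rfl) (Or.inl rfl)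
  · rw [up, order_div hA hB, div_eq_zero_iff]
    simp [hA, hB]

theorem test' (A B : List Ex) (hB : D.S B ≠ 0) (ρ : Gam → Prop)
    (hρ : ∀ γ δ, γ ≤ δ → ρ γ → ρ δ) : up ρ (D.S A / D.S B) ↔
      ∀ a ∈ A, D.od A a → ∃ b ∈ B, D.od B b ∧ ρ (D.W (a ++ ng b)) := by
  rw [D.up_div ρ hB, D.test A B hB ρ hρ]
  simp only [W_append, W_ng, sub_eq_add_neg]

def vld (c : Cd) : Prop := D.S c.2.1 ≠ 0 ∧
  up (fun γ => -(c.2.2.length : Gam) ≤ γ) (D.S c.1 / D.S c.2.1)

def zc : Cd := ([], [[]], [])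

theorem vld_zc : D.vld zc := by
  refine ⟨?_, Or.inl ?_⟩
  · show D.S [[]] ≠ 0
    rw [S_one]; exact one_ne_zero
  · show D.S [] / _ = 0
    rw [S_nil, zero_div]

def ones (l : List ℕ) : Ex := l.map fun _ => (true, 0, 0)

theorem W_ones (l : List ℕ) : D.W (ones l) = l.length := by
  induction l with
  | nil => simp [ones]
  | cons a l ih =>
    have h : ones (a :: l) = [(true, 0, 0)] ++ ones l := rfl
    rw [h, W_append, ih, W_single, cu_zero, List.length_cons]; push_cast; ring

theorem vld_iff (c : Cd) : D.vld c ↔ (∃ b ∈ c.2.1, D.od c.2.1 b) ∧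
    ∀ a ∈ c.1, D.od c.1 a → ∃ b ∈ c.2.1, D.od c.2.1 b ∧ 0 ≤ D.W ((a ++ ng b) ++ ones c.2.2) := by
  rw [vld, ← S_ne_iff]
  refine and_congr_right fun hB => ?_
  rw [D.test' _ _ hB _ (fun γ δ h h' => h'.trans h)]
  have h : ∀ e, (-(c.2.2.length : Gam) ≤ D.W e) ↔ 0 ≤ D.W (e ++ ones c.2.2) := by
    intro e
    rw [D.W_append e, W_ones, neg_le_iff_add_nonneg]
  simp only [h]

theorem prim_ones : Primrec ones := by
  refine Primrec.list_map Primrec.id ?_
  exact (Primrec.const _).to₂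

open Classical in
noncomputable def nz (c : Cd) : Cd := if D.vld c then c else zc

theorem vld_nz (c : Cd) : D.vld (D.nz c) := by
  classical
  rw [nz]; split
  · assumption
  · exact D.vld_zc

theorem nz_of_vld {c : Cd} (h : D.vld c) : D.nz c = c := by
  classical
  rw [nz, if_pos h]

theorem vld_mem {c : Cd} (h : D.vld c) : D.S c.1 / D.S c.2.1 ∈ D.Rt := by
  refine ⟨⟨_, _, h.1, rfl⟩, ?_⟩
  rcases h.2 with h1 | h1
  · exact Or.inl h1
  · exact Or.inr ⟨_, h1⟩

/-- The element with the given code. -/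
noncomputable def evK (c : Cd) : D.Rt := ⟨_, D.vld_mem (D.vld_nz c)⟩

theorem coe_evK (c : Cd) : (D.evK c : KK) = D.S (D.nz c).1 / D.S (D.nz c).2.1 := rfl

def addr (c c' : Cd) : Cd :=
  (mulL c.1 c'.2.1 ++ mulL c.2.1 c'.1, mulL c.2.1 c'.2.1, c.2.2 ++ c'.2.2)

def mulr (c c' : Cd) : Cd := (mulL c.1 c'.1, mulL c.2.1 c'.2.1, c.2.2 ++ c'.2.2)

theorem S_addr {c c' : Cd} (h : D.S c.2.1 ≠ 0) (h' : D.S c'.2.1 ≠ 0) :
    D.S (addr c c').1 / D.S (addr c c').2.1 = D.S c.1 / D.S c.2.1 + D.S c'.1 / D.S c'.2.1 := by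
  simp only [addr]
  rw [S_append, S_mul, S_mul, S_mul, div_add_div _ _ h h']

theorem S_mulr (c c' : Cd) :
    D.S (mulr c c').1 / D.S (mulr c c').2.1 = D.S c.1 / D.S c.2.1 * (D.S c'.1 / D.S c'.2.1) := by
  simp only [mulr]
  rw [S_mul, S_mul, div_mul_div_comm]

theorem vld_addr {c c' : Cd} (h : D.vld c) (h' : D.vld c') : D.vld (addr c c') := by
  refine ⟨?_, ?_⟩
  · show D.S (mulL c.2.1 c'.2.1) ≠ 0
    rw [S_mul]; exact mul_ne_zero h.1 h'.1
  · rw [D.S_addr h.1 h'.1]
    have e1 : ((addr c c').2.2.length : Gam) = c.2.2.length + c'.2.2.length := by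
      simp [addr]
    refine up_add (fun γ δ h h' => h'.trans h) ?_ ?_
    · rcases h.2 with h1 | h1
      · exact Or.inl h1
      · right
        rw [e1]
        have : (0 : Gam) ≤ c'.2.2.length := Nat.cast_nonneg _
        linarith
    · rcases h'.2 with h1 | h1
      · exact Or.inl h1
      · right
        rw [e1]
        have : (0 : Gam) ≤ c.2.2.length := Nat.cast_nonneg _
        linarith

theorem vld_mulr {c c' : Cd} (h : D.vld c) (h' : D.vld c') : D.vld (mulr c c') := by
  refine ⟨?_, ?_⟩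
  · show D.S (mulL c.2.1 c'.2.1) ≠ 0
    rw [S_mul]; exact mul_ne_zero h.1 h'.1
  · rw [D.S_mulr]
    have e1 : ((mulr c c').2.2.length : Gam) = c.2.2.length + c'.2.2.length := by
      simp [mulr]
    by_cases h1 : D.S c.1 / D.S c.2.1 = 0
    · left; rw [h1, zero_mul]
    by_cases h2 : D.S c'.1 / D.S c'.2.1 = 0
    · left; rw [h2, mul_zero]
    right
    have h3 := h.2.resolve_left h1
    have h4 := h'.2.resolve_left h2
    rw [HahnSeries.order_mul h1 h2, e1]
    linarith

noncomputable def addc (c c' : Cd) : Cd := addr (D.nz c) (D.nz c')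

noncomputable def mulc (c c' : Cd) : Cd := mulr (D.nz c) (D.nz c')

theorem evK_addc (c c' : Cd) : D.evK (D.addc c c') = D.evK c + D.evK c' := by
  apply Subtype.ext
  rw [coe_evK, addc, D.nz_of_vld (D.vld_addr (D.vld_nz c) (D.vld_nz c')),
    D.S_addr (D.vld_nz c).1 (D.vld_nz c').1]
  rfl

theorem evK_mulc (c c' : Cd) : D.evK (D.mulc c c') = D.evK c * D.evK c' := by
  apply Subtype.ext
  rw [coe_evK, mulc, D.nz_of_vld (D.vld_mulr (D.vld_nz c) (D.vld_nz c')), D.S_mulr]
  rfl

theorem neg_evK (c : Cd) : - D.evK c = D.evK c := Subtype.ext (KK_neg _)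

theorem evK_surj (z : D.Rt) : ∃ c, D.evK c = z := by
  obtain ⟨z, ⟨A, B, hB, rfl⟩, h⟩ := z
  have hN : ∃ N : ℕ, up (fun γ => -(N : Gam) ≤ γ) (D.S A / D.S B) := by
    rcases h with h | ⟨N, hN⟩
    · exact ⟨0, Or.inl h⟩
    · exact ⟨N, Or.inr hN⟩
  obtain ⟨N, hN⟩ := hN
  have hv : D.vld (A, B, List.replicate N 0) := ⟨hB, by simpa using hN⟩
  refine ⟨(A, B, List.replicate N 0), Subtype.ext ?_⟩
  rw [coe_evK, D.nz_of_vld hv]

/-- The test for membership in the ideal given by the upward closed set `ρ`. -/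
theorem up_evK (c : Cd) (ρ : Gam → Prop) (hρ : ∀ γ δ, γ ≤ δ → ρ γ → ρ δ) :
    up ρ (D.evK c : KK) ↔ ∀ a ∈ (D.nz c).1, D.od (D.nz c).1 a →
      ∃ b ∈ (D.nz c).2.1, D.od (D.nz c).2.1 b ∧ ρ (D.W (a ++ ng b)) := by
  rw [coe_evK, D.test' _ _ (D.vld_nz c).1 ρ hρ]

section comp

variable (hb : Computable D.b) (hT : Computable₂ D.T)

include hb hT in
theorem cp_vld : ComputablePred D.vld := by
  have h1 : ComputablePred fun c : Cd => ∃ b ∈ c.2.1, D.od c.2.1 b := by
    refine cp_ex_mem (p := fun (c : Cd) b => D.od c.2.1 b) ?_ (by fun_prop)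
    exact RE.cp_comp (D.cp_od hb hT) (f := fun z : Cd × Ex => (z.1.2.1, z.2)) (by fun_prop)
  have h2 : ComputablePred fun c : Cd => ∀ a ∈ c.1, D.od c.1 a →
      ∃ b ∈ c.2.1, D.od c.2.1 b ∧ 0 ≤ D.W ((a ++ ng b) ++ ones c.2.2) := by
    refine D.cp_test hb hT (A := fun c : Cd => c.1) (B := fun c => c.2.1)
      (ρ := fun c e => 0 ≤ D.W (e ++ ones c.2.2)) (by fun_prop) (by fun_prop) ?_
    refine RE.cp_comp (D.cp_nonneg hb hT) (f := fun z : Cd × Ex => z.2 ++ ones z.1.2.2) ?_
    exact RE.cappend (by fun_prop) (prim_ones.to_comp.comp (by fun_prop))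
  exact (cp_and h1 h2).of_eq fun c => (D.vld_iff c).symm

include hb hT in
theorem comp_nz : Computable D.nz := by
  classical
  exact RE.cite (D.cp_vld hb hT) Computable.id (Computable.const zc)

include hb hT in
theorem comp_addc : Computable₂ D.addc := by
  have h := D.comp_nz hb hT
  have h1 : Computable fun p : Cd × Cd => D.nz p.1 := h.comp Computable.fst
  have h2 : Computable fun p : Cd × Cd => D.nz p.2 := h.comp Computable.snd
  have hm := prim_mulL.to_comp
  refine Computable.pair (RE.cappend ?_ ?_) (Computable.pair ?_ ?_)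
  · exact hm.comp (by fun_prop) (by fun_prop)
  · exact hm.comp (by fun_prop) (by fun_prop)
  · exact hm.comp (by fun_prop) (by fun_prop)
  · fun_prop

include hb hT in
theorem comp_mulc : Computable₂ D.mulc := by
  have h := D.comp_nz hb hT
  have h1 : Computable fun p : Cd × Cd => D.nz p.1 := h.comp Computable.fst
  have h2 : Computable fun p : Cd × Cd => D.nz p.2 := h.comp Computable.snd
  have hm := prim_mulL.to_comp
  refine Computable.pair ?_ (Computable.pair ?_ ?_)
  · exact hm.comp (by fun_prop) (by fun_prop)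
  · exact hm.comp (by fun_prop) (by fun_prop)
  · fun_prop

end comp

/-- The quotient ring. -/
abbrev Rq : Type := D.Rt ⧸ D.II

noncomputable def evq (c : Cd) : D.Rq := Ideal.Quotient.mk D.II (D.evK c)

theorem evq_eq_iff (c c' : Cd) : D.evq c = D.evq c' ↔ ∀ a ∈ (D.nz (D.addc c c')).1,
    D.od (D.nz (D.addc c c')).1 a → ∃ b ∈ (D.nz (D.addc c c')).2.1,
      D.od (D.nz (D.addc c c')).2.1 b ∧ D.big (D.W (a ++ ng b)) := by
  rw [← D.up_evK _ D.big (fun _ _ h => D.big_mono h), evq, evq, Ideal.Quotient.eq, sub_eq_add_neg,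
    neg_evK, ← evK_addc, mem_II]

section comp

variable (hb : Computable D.b) (hT : Computable₂ D.T)

include hb hT in
theorem cp_evq : ComputablePred fun p : Cd × Cd => D.evq p.1 = D.evq p.2 := by
  have h1 : Computable fun p : Cd × Cd => D.nz (D.addc p.1 p.2) :=
    (D.comp_nz hb hT).comp (D.comp_addc hb hT)
  have h2 := D.cp_test hb hT (A := fun p : Cd × Cd => (D.nz (D.addc p.1 p.2)).1)
    (B := fun p : Cd × Cd => (D.nz (D.addc p.1 p.2)).2.1)
    (ρ := fun _ e => D.big (D.W e)) (by fun_prop) (by fun_prop)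
    (RE.cp_comp (D.cp_big hb hT) (f := fun z : (Cd × Cd) × Ex => z.2) (by fun_prop))
  exact h2.of_eq fun p => (D.evq_eq_iff p.1 p.2).symm

end comp

/-- The code given by a number. -/
def cN (n : ℕ) : Cd := (decode n : Option Cd).getD zc

theorem cN_encode (c : Cd) : cN (encode c) = c := by simp [cN]

theorem comp_cN : Computable cN := by
  have h : Computable fun n : ℕ => (decode n : Option Cd) := Computable.decode
  exact Computable.option_getD h (Computable.const zc)

/-- The presentation of the ring on a set of natural numbers. -/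
theorem exists_pres (hb : Computable D.b) (hT : Computable₂ D.T) :
    ∃ (U : Set ℕ) (_ : CommRing U) (ψ : D.Rq ≃+* U) (rep : ℕ → ℕ), ComputableRing U ∧
      Computable rep ∧ (∀ n, (ψ (D.evq (cN n)) : ℕ) = rep n) ∧ ∀ n : U, ψ (D.evq (cN n)) = n := by
  refine pres (fun n => D.evq (cN n)) ?_ (fun m n => encode (D.addc (cN m) (cN n)))
    (fun m n => encode (D.mulc (cN m) (cN n))) (fun n => n) ?_ ?_ Computable.id ?_ ?_ ?_ ?_
  · intro r
    obtain ⟨z, rfl⟩ := Ideal.Quotient.mk_surjective r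
    obtain ⟨c, rfl⟩ := D.evK_surj z
    exact ⟨encode c, by show D.evq (cN (encode c)) = _; rw [cN_encode]; rfl⟩
  · exact Computable.encode.comp ((D.comp_addc hb hT).comp (comp_cN.comp Computable.fst)
      (comp_cN.comp Computable.snd))
  · exact Computable.encode.comp ((D.comp_mulc hb hT).comp (comp_cN.comp Computable.fst)
      (comp_cN.comp Computable.snd))
  · intro m n
    show D.evq (cN (encode _)) = _
    rw [cN_encode, evq, evK_addc, map_add]; rfl
  · intro m n
    show D.evq (cN (encode _)) = _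
    rw [cN_encode, evq, evK_mulc, map_mul]; rfl
  · intro n
    show D.evq (cN n) = - D.evq (cN n)
    rw [evq, ← map_neg, neg_evK]
  · exact RE.cp_comp (D.cp_evq hb hT) (f := fun p : ℕ × ℕ => (cN p.1, cN p.2))
      ((comp_cN.comp Computable.fst).pair (comp_cN.comp Computable.snd))

end Dat

end Pool.Agent.H454R3.Spec
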