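import Pool.Agent.H454R3.Spec.Ring

/-!
From a computable, computably bounded tree of finite sequences to the numerical tree data.
-/

namespace Pool.Agent.H454R3.Spec

open Filter Encodable
open Pool.Agent.Helper578.JD

/-- The initial segment of length `n` of `f`. -/
def pre (f : ℕ → ℕ) (n : ℕ) : List ℕ := (List.range n).map f

/-- The set of infinite paths through `T`. -/
def paths (T : Set (List ℕ)) : Set (ℕ → ℕ) := {f | ∀ n, pre f n ∈ T}

theorem pre_succ (f : ℕ → ℕ) (n : ℕ) : pre f (n + 1) = pre f n ++ [f n] := by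
  simp [pre, List.range_succ]

theorem pre_length (f : ℕ → ℕ) (n : ℕ) : (pre f n).length = n := by simp [pre]

def nodes (g : List ℕ → ℕ) : ℕ → List (List ℕ)
  | 0 => [[]]
  | j + 1 => (nodes g j).flatMap fun σ => (List.range (g σ)).map fun v => σ ++ [v]

def bf (g : List ℕ → ℕ) (j : ℕ) : ℕ := ((nodes g j).map g).sum + 1

def posS (b : ℕ → ℕ) (σ : List ℕ) : ℕ × ℕ := σ.foldl (fun p v => (p.1 + 1, p.2 * b p.1 + v)) (0, 0)

/-- The position of a sequence among all sequences of its length which are bounded by `b`. -/
def posn (b : ℕ → ℕ) (σ : List ℕ) : ℕ := (posS b σ).2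

theorem posS_fst (b : ℕ → ℕ) (σ : List ℕ) : (posS b σ).1 = σ.length := by
  induction σ using List.reverseRecOn with
  | nil => rfl
  | append_singleton σ v ih =>
    rw [posS] at ih ⊢
    rw [List.foldl_append, List.length_append, ← ih]; rfl

theorem posn_append (b : ℕ → ℕ) (σ : List ℕ) (v : ℕ) :
    posn b (σ ++ [v]) = posn b σ * b σ.length + v := by
  rw [posn, posn, ← posS_fst b σ, posS, List.foldl_append]; rfl

def bdd (b : ℕ → ℕ) (σ : List ℕ) : Prop := ∀ i v, σ[i]? = some v → v < b i

theorem bdd_append {b : ℕ → ℕ} {σ : List ℕ} {v : ℕ} :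
    bdd b (σ ++ [v]) ↔ bdd b σ ∧ v < b σ.length := by
  constructor
  · intro h
    constructor
    · intro i w hi
      refine h i w ?_
      have hl : i < σ.length := by
        by_contra hcon
        rw [List.getElem?_eq_none (by omega)] at hi
        cases hi
      rw [List.getElem?_append_left hl]; exact hi
    · exact h σ.length v (by simp)
  · rintro ⟨h1, h2⟩ i w hi
    by_cases hl : i < σ.length
    · rw [List.getElem?_append_left hl] at hi
      exact h1 i w hi
    · have hi' : i = σ.length := by
        by_contra hcon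
        rw [List.getElem?_eq_none (by simp; omega)] at hi
        cases hi
      subst hi'
      simp at hi
      subst hi
      exact h2

theorem posn_lt {b : ℕ → ℕ} : ∀ {σ : List ℕ}, bdd b σ → posn b σ < BB b σ.length := by
  intro σ
  induction σ using List.reverseRecOn with
  | nil => intro _; exact Nat.one_pos
  | append_singleton σ v ih =>
    intro h
    obtain ⟨h1, h2⟩ := bdd_append.1 h
    have h3 := ih h1
    rw [posn_append, List.length_append, List.length_singleton, BB]
    nlinarith

theorem posn_inj {b : ℕ → ℕ} : ∀ {σ τ : List ℕ}, bdd b σ → bdd b τ → σ.length = τ.length →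
    posn b σ = posn b τ → σ = τ := by
  intro σ
  induction σ using List.reverseRecOn with
  | nil =>
    intro τ _ _ hl _
    exact (List.length_eq_zero_iff.1 hl.symm).symm
  | append_singleton σ v ih =>
    intro τ hσ hτ hl hp
    rcases List.eq_nil_or_concat τ with rfl | ⟨τ', w, rfl⟩
    · simp at hl
    · rw [List.concat_eq_append] at hτ hl hp ⊢
      obtain ⟨h1, h2⟩ := bdd_append.1 hσ
      obtain ⟨h3, h4⟩ := bdd_append.1 hτ
      have hl' : σ.length = τ'.length := by simpa using hl
      rw [posn_append, posn_append, ← hl'] at hp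
      rw [← hl'] at h4
      have hb : 0 < b σ.length := by omega
      have e1 : posn b σ = posn b τ' := by
        have : (posn b σ * b σ.length + v) / b σ.length =
            (posn b τ' * b σ.length + w) / b σ.length := by rw [hp]
        rw [Nat.mul_comm (posn b σ), Nat.mul_comm (posn b τ'), Nat.mul_add_div hb,
          Nat.mul_add_div hb, Nat.div_eq_of_lt h2, Nat.div_eq_of_lt h4] at this
        simpa using this
      have e2 : v = w := by rw [e1] at hp; omega
      rw [ih h1 h3 hl' e1, e2]

theorem nodes_length {g : List ℕ → ℕ} : ∀ {j : ℕ} {σ : List ℕ}, σ ∈ nodes g j → σ.length = j := by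
  intro j
  induction j with
  | zero => intro σ h; simp [nodes] at h; simp [h]
  | succ j ih =>
    intro σ h
    rw [nodes, List.mem_flatMap] at h
    obtain ⟨τ, h1, h2⟩ := h
    obtain ⟨v, _, rfl⟩ := List.mem_map.1 h2
    simp [ih h1]

section tree

variable {T : Set (List ℕ)} {g : List ℕ → ℕ} (hcl : ∀ σ τ, σ <+: τ → τ ∈ T → σ ∈ T)
  (hg : ∀ σ i, σ ++ [i] ∈ T → i < g σ)

include hcl hg in
theorem mem_nodes : ∀ {σ : List ℕ}, σ ∈ T → σ ∈ nodes g σ.length := by
  intro σ
  induction σ using List.reverseRecOn with
  | nil => intro _; simp [nodes]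
  | append_singleton σ v ih =>
    intro h
    rw [List.length_append, List.length_singleton, nodes, List.mem_flatMap]
    exact ⟨σ, ih (hcl _ _ (List.prefix_append _ _) h), List.mem_map.2 ⟨v, List.mem_range.2 (hg _ _ h),
      rfl⟩⟩

include hcl hg in
theorem bdd_of_mem : ∀ {σ : List ℕ}, σ ∈ T → bdd (bf g) σ := by
  intro σ
  induction σ using List.reverseRecOn with
  | nil => intro _ i v h; simp at h
  | append_singleton σ v ih =>
    intro h
    have h1 := hcl _ _ (List.prefix_append σ [v]) h
    refine bdd_append.2 ⟨ih h1, ?_⟩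
    have h2 := hg _ _ h
    have h3 : g σ ≤ ((nodes g σ.length).map g).sum :=
      List.single_le_sum (fun _ _ => Nat.zero_le _) _
        (List.mem_map_of_mem (f := g) (mem_nodes hcl hg h1))
    rw [bf]; omega

open Classical in
/-- The numerical tree. -/
noncomputable def TT (T : Set (List ℕ)) (g : List ℕ → ℕ) (j τ : ℕ) : Bool :=
  decide (∃ σ ∈ nodes g j, σ ∈ T ∧ posn (bf g) σ = τ)

theorem TT_iff {j τ : ℕ} : TT T g j τ = true ↔ ∃ σ ∈ nodes g j, σ ∈ T ∧ posn (bf g) σ = τ := by
  simp [TT]

include hcl hg in
theorem pre_node {f : ℕ → ℕ} (hf : f ∈ paths T) (j : ℕ) : pre f j ∈ nodes g j := by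
  have := mem_nodes hcl hg (hf j)
  rwa [pre_length] at this

/-- The tree data. -/
noncomputable def mkDat (hcl : ∀ σ τ, σ <+: τ → τ ∈ T → σ ∈ T)
    (hg : ∀ σ i, σ ++ [i] ∈ T → i < g σ) (hne : (paths T).Nonempty) : Dat where
  b := bf g
  T := TT T g
  hb := fun j => Nat.succ_pos _
  par := by
    intro j τ h
    obtain ⟨σ, h1, h2, h3⟩ := TT_iff.1 h
    have hl := nodes_length h1
    rcases List.eq_nil_or_concat σ with rfl | ⟨σ', v, rfl⟩
    · simp at hl
    · rw [List.concat_eq_append] at *
      have hl' : σ'.length = j := by simpa using hl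
      have h4 := hcl _ _ (List.prefix_append σ' [v]) h2
      have h5 := (bdd_append.1 (bdd_of_mem hcl hg h2)).2
      refine TT_iff.2 ⟨σ', by rw [← hl']; exact mem_nodes hcl hg h4, h4, ?_⟩
      rw [← h3, posn_append, hl']
      rw [hl'] at h5
      rw [Nat.mul_comm, Nat.mul_add_div (by omega), Nat.div_eq_of_lt h5, Nat.add_zero]
  ne := by
    obtain ⟨f, hf⟩ := hne
    intro j
    refine ⟨posn (bf g) (pre f j), ?_, TT_iff.2 ⟨_, pre_node hcl hg hf j, hf j, rfl⟩⟩
    have := posn_lt (bdd_of_mem hcl hg (hf j))
    rwa [pre_length] at this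

theorem isPath_of (hne : (paths T).Nonempty) {f : ℕ → ℕ} (hf : f ∈ paths T) :
    (mkDat hcl hg hne).IsPath fun j => posn (bf g) (pre f j) := by
  intro j
  refine ⟨?_, ?_, ?_⟩
  · have := posn_lt (bdd_of_mem hcl hg (hf j))
    rwa [pre_length] at this
  · exact TT_iff.2 ⟨_, pre_node hcl hg hf j, hf j, rfl⟩
  · show posn (bf g) (pre f (j + 1)) / bf g j = posn (bf g) (pre f j)
    have h1 := hf (j + 1)
    rw [pre_succ] at h1 ⊢
    have h5 := (bdd_append.1 (bdd_of_mem hcl hg h1)).2
    rw [pre_length] at h5
    rw [posn_append, pre_length, Nat.mul_comm, Nat.mul_add_div (by omega), Nat.div_eq_of_lt h5,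
      Nat.add_zero]

theorem of_isPath (hne : (paths T).Nonempty) {x : ℕ → ℕ} (hx : (mkDat hcl hg hne).IsPath x) :
    ∃ f ∈ paths T, x = fun j => posn (bf g) (pre f j) := by
  refine ⟨fun j => x (j + 1) % bf g j, ?_⟩
  set f : ℕ → ℕ := fun j => x (j + 1) % bf g j with hf
  have key : ∀ j, pre f j ∈ T ∧ posn (bf g) (pre f j) = x j := by
    intro j
    induction j with
    | zero =>
      obtain ⟨σ, h1, h2, h3⟩ := TT_iff.1 (hx 0).2.1
      have hl := List.length_eq_zero_iff.1 (nodes_length h1)
      subst hl
      exact ⟨h2, h3⟩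
    | succ j ih =>
      obtain ⟨σ, h1, h2, h3⟩ := TT_iff.1 (hx (j + 1)).2.1
      have hl := nodes_length h1
      rcases List.eq_nil_or_concat σ with rfl | ⟨σ', v, rfl⟩
      · simp at hl
      · rw [List.concat_eq_append] at *
        have hl' : σ'.length = j := by simpa using hl
        have h4 := hcl _ _ (List.prefix_append σ' [v]) h2
        have h5 := (bdd_append.1 (bdd_of_mem hcl hg h2)).2
        rw [hl'] at h5
        have h6 : x (j + 1) / bf g j = x j := (hx j).2.2
        rw [posn_append, hl'] at h3
        have h7 : posn (bf g) σ' = x j := by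
          rw [← h6, ← h3, Nat.mul_comm, Nat.mul_add_div (by omega), Nat.div_eq_of_lt h5,
            Nat.add_zero]
        have h8 : σ' = pre f j := by
          refine posn_inj (bdd_of_mem hcl hg h4) (bdd_of_mem hcl hg ih.1) ?_ ?_
          · rw [hl', pre_length]
          · rw [h7, ih.2]
        have h9 : v = f j := by
          show v = x (j + 1) % bf g j
          rw [← h3, Nat.mul_comm, Nat.mul_add_mod, Nat.mod_eq_of_lt h5]
        rw [pre_succ, ← h8, ← h9]
        exact ⟨h2, by rw [posn_append, hl']; exact h3⟩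
  exact ⟨fun n => (key n).1, funext fun j => (key j).2.symm⟩

end tree

section comp

variable {T : Set (List ℕ)} {g : List ℕ → ℕ}

theorem comp_nodes (hgc : Computable g) : Computable (nodes g) := by
  have hin : Primrec fun z : List ℕ × ℕ => (List.range z.2).map fun v => z.1 ++ [v] := by
    refine Primrec.list_map (Primrec.list_range.comp Primrec.snd) ?_
    exact (Primrec.list_append.comp (Primrec.fst.comp Primrec.fst)
      (Primrec.list_cons.comp Primrec.snd (Primrec.const []))).to₂
  have hstep : Computable fun L : List (List ℕ) =>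
      L.foldl (fun acc σ => acc ++ (List.range (g σ)).map fun v => σ ++ [v]) [] := by
    refine RE.list_foldl (f := fun L : List (List ℕ) => L) (g := fun _ => ([] : List (List ℕ)))
      (h := fun _ (y : List (List ℕ) × List ℕ) =>
        y.1 ++ (List.range (g y.2)).map fun v => y.2 ++ [v]) Computable.id (Computable.const []) ?_
    refine RE.cappend (by fun_prop) ?_
    exact hin.to_comp.comp (f := fun z : List ℕ × ℕ => (List.range z.2).map fun v => z.1 ++ [v])
      (g := fun w : List (List ℕ) × (List (List ℕ) × List ℕ) => (w.2.2, g w.2.2)) (by fun_prop)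
  have h := Computable.nat_rec (f := fun n : ℕ => n) (g := fun _ : ℕ => ([[]] : List (List ℕ)))
    (h := fun (_ : ℕ) (y : ℕ × List (List ℕ)) =>
      y.2.foldl (fun acc σ => acc ++ (List.range (g σ)).map fun v => σ ++ [v]) [])
    Computable.id (Computable.const _) (hstep.comp (Computable.snd.comp Computable.snd))
  refine h.of_eq fun n => ?_
  induction n with
  | zero => rfl
  | succ n ih =>
    have h1 : ∀ (L : List (List ℕ)) (acc : List (List ℕ)),
        L.foldl (fun acc σ => acc ++ (List.range (g σ)).map fun v => σ ++ [v]) acc =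
        acc ++ L.flatMap fun σ => (List.range (g σ)).map fun v => σ ++ [v] := by
      intro L
      induction L with
      | nil => intro acc; simp
      | cons σ L ih => intro acc; rw [List.foldl_cons, ih, List.flatMap_cons, List.append_assoc]
    rw [nodes, ← ih]
    exact (h1 _ []).trans (List.nil_append _)

theorem comp_bf (hgc : Computable g) : Computable (bf g) := by
  have h1 : Computable fun L : List (List ℕ) => L.foldl (fun acc σ => acc + g σ) 1 := by
    refine RE.list_foldl (f := fun L : List (List ℕ) => L) (g := fun _ => 1)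
      (h := fun _ (y : ℕ × List ℕ) => y.1 + g y.2) Computable.id (Computable.const 1) ?_
    show Computable fun w : List (List ℕ) × (ℕ × List ℕ) => w.2.1 + g w.2.2
    fun_prop
  refine (h1.comp (comp_nodes hgc)).of_eq fun n => ?_
  have h2 : ∀ (L : List (List ℕ)) (acc : ℕ), L.foldl (fun acc σ => acc + g σ) acc =
      (L.map g).sum + acc := by
    intro L
    induction L with
    | nil => intro acc; simp
    | cons σ L ih => intro acc; rw [List.foldl_cons, ih, List.map_cons, List.sum_cons]; omega
  exact h2 _ 1

theorem comp_posn {b : ℕ → ℕ} (hb : Computable b) : Computable (posn b) := by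
  have h1 : Computable (posS b) := by
    refine RE.list_foldl (f := fun L : List ℕ => L) (g := fun _ => ((0, 0) : ℕ × ℕ))
      (h := fun _ (y : (ℕ × ℕ) × ℕ) => (y.1.1 + 1, y.1.2 * b y.1.1 + y.2)) Computable.id
      (Computable.const _) ?_
    show Computable fun w : List ℕ × ((ℕ × ℕ) × ℕ) => (w.2.1.1 + 1, w.2.1.2 * b w.2.1.1 + w.2.2)
    fun_prop
  exact Computable.snd.comp h1

theorem comp_TT (hT : ComputablePred (· ∈ T)) (hgc : Computable g) : Computable₂ (TT T g) := by
  classical
  have h1 := comp_posn (comp_bf hgc)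
  have h2 := comp_nodes hgc
  have h : ComputablePred fun p : ℕ × ℕ => ∃ σ ∈ nodes g p.1, σ ∈ T ∧ posn (bf g) σ = p.2 := by
    refine cp_ex_mem (p := fun (p : ℕ × ℕ) σ => σ ∈ T ∧ posn (bf g) σ = p.2) ?_ (by fun_prop)
    refine cp_and ?_ ?_
    · exact RE.cp_comp hT (f := fun z : (ℕ × ℕ) × List ℕ => z.2) (by fun_prop)
    · exact RE.cp_eq (by fun_prop) (by fun_prop)
  refine (RE.cdecide h).of_eq fun p => ?_
  rw [TT]

end comp

end Pool.Agent.H454R3.Spec
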