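import Mathlib

/-!
The combinatorics of the weights: to a finitely branching tree (given level by level) we attach, for
every stage `s` and every cut `u = (a, i)` at level `i`, a natural number `r s u`, in such a way that
the sign of an integer combination of the numbers `2 ^ r s u` does not depend on `s` for large `s`.
-/

namespace Pool.Agent.H454R3.Spec

/-- The number of all nodes at level `j`. -/
def BB (b : ℕ → ℕ) : ℕ → ℕ
  | 0 => 1
  | j + 1 => BB b j * b j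

/-- A finitely branching tree, level by level, without dead levels. -/
structure Dat where
  b : ℕ → ℕ
  T : ℕ → ℕ → Bool
  hb : ∀ j, 0 < b j
  par : ∀ j τ, T (j + 1) τ = true → T j (τ / b j) = true
  ne : ∀ j, ∃ τ < BB b j, T j τ = true

namespace Dat

variable (D : Dat)

def B (j : ℕ) : ℕ := BB D.b j

theorem B_pos (j : ℕ) : 0 < D.B j := by
  induction j with
  | zero => exact Nat.one_pos
  | succ j ih => exact Nat.mul_pos ih (D.hb j)

theorem B_succ (j : ℕ) : D.B (j + 1) = D.B j * D.b j := rfl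

theorem B_dvd {i j : ℕ} (h : i ≤ j) : D.B i ∣ D.B j := by
  induction j, h using Nat.le_induction with
  | base => exact dvd_rfl
  | succ j _ ih => exact dvd_trans ih (Dvd.intro _ rfl)

/-- Node `τ` at level `j` is to the left of the cut `u`. -/
abbrev lft (j τ : ℕ) (u : ℕ × ℕ) : Prop := (τ + 1) * D.B u.2 ≤ u.1 * D.B j

/-- The order of cuts. -/
abbrev cle (u v : ℕ × ℕ) : Prop := u.1 * D.B v.2 ≤ v.1 * D.B u.2

def cset (j : ℕ) (u : ℕ × ℕ) : Finset ℕ :=
  (Finset.range (D.B j)).filter fun τ => D.T j τ = true ∧ D.lft j τ u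

def cnt (j : ℕ) (u : ℕ × ℕ) : ℕ := (D.cset j u).card

def r (s : ℕ) (u : ℕ × ℕ) : ℕ := ∑ j ∈ Finset.range (s + 1), j * D.cnt j u

theorem lft_mono {j τ : ℕ} {u v : ℕ × ℕ} (h : D.cle u v) (h1 : D.lft j τ u) : D.lft j τ v := by
  have hp := D.B_pos u.2
  refine Nat.le_of_mul_le_mul_right ?_ hp
  calc (τ + 1) * D.B v.2 * D.B u.2 = (τ + 1) * D.B u.2 * D.B v.2 := by ring
    _ ≤ u.1 * D.B j * D.B v.2 := Nat.mul_le_mul_right _ h1
    _ = u.1 * D.B v.2 * D.B j := by ring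
    _ ≤ v.1 * D.B u.2 * D.B j := Nat.mul_le_mul_right _ h
    _ = v.1 * D.B j * D.B u.2 := by ring

theorem cset_mono {u v : ℕ × ℕ} (h : D.cle u v) (j : ℕ) : D.cset j u ⊆ D.cset j v := by
  intro τ hτ
  simp only [cset, Finset.mem_filter] at hτ ⊢
  exact ⟨hτ.1, hτ.2.1, D.lft_mono h hτ.2.2⟩

theorem cnt_mono {u v : ℕ × ℕ} (h : D.cle u v) (j : ℕ) : D.cnt j u ≤ D.cnt j v :=
  Finset.card_le_card (D.cset_mono h j)

theorem r_mono {u v : ℕ × ℕ} (h : D.cle u v) (s : ℕ) : D.r s u ≤ D.r s v :=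
  Finset.sum_le_sum fun j _ => Nat.mul_le_mul_left _ (D.cnt_mono h j)

theorem cle_total (u v : ℕ × ℕ) : D.cle u v ∨ D.cle v u := le_total _ _

theorem cle_of_cnt_lt {u v : ℕ × ℕ} {s : ℕ} (h : D.cnt s u < D.cnt s v) : D.cle u v := by
  rcases D.cle_total u v with h1 | h1
  · exact h1
  · exact absurd (D.cnt_mono h1 s) (by omega)

theorem r_sep {u v : ℕ × ℕ} {s0 s : ℕ} (h : D.cnt s0 u < D.cnt s0 v) (hs : s0 ≤ s) :
    D.r s u + s0 ≤ D.r s v := by
  have h1 := D.cle_of_cnt_lt h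
  have hmem : s0 ∈ Finset.range (s + 1) := Finset.mem_range.2 (by omega)
  rw [r, r, ← Finset.add_sum_erase _ _ hmem, ← Finset.add_sum_erase _ _ hmem]
  have h2 : ∑ j ∈ (Finset.range (s + 1)).erase s0, j * D.cnt j u ≤
      ∑ j ∈ (Finset.range (s + 1)).erase s0, j * D.cnt j v :=
    Finset.sum_le_sum fun j _ => Nat.mul_le_mul_left _ (D.cnt_mono h1 j)
  have h3 : s0 * D.cnt s0 u + s0 ≤ s0 * D.cnt s0 v := by nlinarith
  omega

/-- The ancestor of a node of level `j` at level `s`. -/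
def anc (s j τ : ℕ) : ℕ := τ / (D.B j / D.B s)

theorem anc_T {s j : ℕ} (h : s ≤ j) : ∀ τ, D.T j τ = true → D.T s (D.anc s j τ) = true := by
  induction j, h using Nat.le_induction with
  | base =>
    intro τ hτ
    rw [anc, Nat.div_self (D.B_pos s), Nat.div_one]
    exact hτ
  | succ j hj ih =>
    intro τ hτ
    have h1 := ih _ (D.par j τ hτ)
    have h2 : D.anc s j (τ / D.b j) = D.anc s (j + 1) τ := by
      rw [anc, anc, Nat.div_div_eq_div_mul, D.B_succ]
      congr 1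
      rw [Nat.mul_comm (D.B j) (D.b j), Nat.mul_div_assoc _ (D.B_dvd hj)]
    rwa [h2] at h1

theorem anc_lt {s j τ : ℕ} (h : s ≤ j) (hτ : τ < D.B j) : D.anc s j τ < D.B s := by
  obtain ⟨k, hk⟩ := D.B_dvd h
  have hs := D.B_pos s
  have hk0 : 0 < k := by
    rcases Nat.eq_zero_or_pos k with h0 | h0
    · have := D.B_pos j
      rw [hk, h0] at this; omega
    · exact h0
  rw [anc, hk, Nat.mul_div_cancel_left _ hs]
  rw [Nat.div_lt_iff_lt_mul hk0]
  rwa [← hk]

theorem lft_anc {s j τ : ℕ} {u : ℕ × ℕ} (hu : u.2 ≤ s) (h : s ≤ j) :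
    D.lft j τ u ↔ D.lft s (D.anc s j τ) u := by
  obtain ⟨k, hk⟩ := D.B_dvd h
  obtain ⟨m, hm⟩ := D.B_dvd hu
  have hs := D.B_pos s
  have hu0 := D.B_pos u.2
  have hk0 : 0 < k := by
    rcases Nat.eq_zero_or_pos k with h0 | h0
    · have := D.B_pos j
      rw [hk, h0] at this; omega
    · exact h0
  rw [lft, lft, anc, hk, Nat.mul_div_cancel_left _ hs, hm]
  have e1 : u.1 * (D.B u.2 * m * k) = (u.1 * m * k) * D.B u.2 := by ring
  have e2 : u.1 * (D.B u.2 * m) = (u.1 * m) * D.B u.2 := by ring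
  rw [e1, e2, Nat.mul_le_mul_right_iff hu0, Nat.mul_le_mul_right_iff hu0]
  rw [Nat.succ_le_iff, Nat.succ_le_iff, Nat.div_lt_iff_lt_mul hk0]

theorem cset_tie {u v : ℕ × ℕ} {s : ℕ} (hu : u.2 ≤ s) (hv : v.2 ≤ s) (h : D.cset s u = D.cset s v)
    {j : ℕ} (hj : s ≤ j) : D.cset j u = D.cset j v := by
  ext τ
  simp only [cset, Finset.mem_filter, Finset.mem_range]
  refine and_congr_right fun h1 => and_congr_right fun h2 => ?_
  rw [D.lft_anc hu hj, D.lft_anc hv hj]
  have h3 := Finset.ext_iff.1 h (D.anc s j τ)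
  simp only [cset, Finset.mem_filter, Finset.mem_range] at h3
  have h4 := D.anc_lt hj h1
  have h5 := D.anc_T hj τ h2
  simpa [h4, h5] using h3

theorem cnt_tie {u v : ℕ × ℕ} {s : ℕ} (hu : u.2 ≤ s) (hv : v.2 ≤ s) (h : D.cnt s u = D.cnt s v)
    {j : ℕ} (hj : s ≤ j) : D.cnt j u = D.cnt j v := by
  have h1 : D.cset s u = D.cset s v := by
    rcases D.cle_total u v with h1 | h1
    · exact Finset.eq_of_subset_of_card_le (D.cset_mono h1 s) (le_of_eq h.symm)
    · exact (Finset.eq_of_subset_of_card_le (D.cset_mono h1 s) (le_of_eq h)).symm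
  rw [cnt, cnt, D.cset_tie hu hv h1 hj]

theorem r_tie {u v : ℕ × ℕ} {s0 s : ℕ} (hu : u.2 ≤ s0) (hv : v.2 ≤ s0)
    (h : D.cnt s0 u = D.cnt s0 v) (hs : s0 ≤ s) : D.r s u + D.r s0 v = D.r s v + D.r s0 u := by
  induction s, hs using Nat.le_induction with
  | base => omega
  | succ s hs ih =>
    have h1 : D.cnt (s + 1) u = D.cnt (s + 1) v := D.cnt_tie hu hv h (by omega)
    have h2 : ∀ w, D.r (s + 1) w = D.r s w + (s + 1) * D.cnt (s + 1) w := fun w => by
      rw [r, r, Finset.sum_range_succ]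
    rw [h2, h2, h1]
    omega

/-- The value at stage `s` of a formal integer combination of cuts. -/
def Wt (s : ℕ) (c : List (ℤ × ℕ × ℕ)) : ℤ := (c.map fun x => x.1 * 2 ^ D.r s x.2).sum

end Dat

/-- The norm of a formal combination. -/
def nrm (c : List (ℤ × ℕ × ℕ)) : ℕ := (c.map fun x => x.1.natAbs).sum

theorem nrm_append (c d : List (ℤ × ℕ × ℕ)) : nrm (c ++ d) = nrm c + nrm d := by simp [nrm]

theorem nrm_filter_le (p : ℤ × ℕ × ℕ → Bool) (c : List (ℤ × ℕ × ℕ)) : nrm (c.filter p) ≤ nrm c := by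
  induction c with
  | nil => simp
  | cons x c ih =>
    rw [List.filter_cons]
    split
    · simp only [nrm, List.map_cons, List.sum_cons] at ih ⊢; omega
    · simp only [nrm, List.map_cons, List.sum_cons] at ih ⊢; omega

namespace Dat

variable (D : Dat)

@[simp] theorem Wt_nil (s : ℕ) : D.Wt s [] = 0 := rfl

theorem Wt_append (s : ℕ) (c d : List (ℤ × ℕ × ℕ)) : D.Wt s (c ++ d) = D.Wt s c + D.Wt s d := by
  simp [Wt]

theorem Wt_filter (s : ℕ) (p : ℤ × ℕ × ℕ → Bool) (c : List (ℤ × ℕ × ℕ)) :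
    D.Wt s c = D.Wt s (c.filter p) + D.Wt s (c.filter fun x => !p x) := by
  induction c with
  | nil => simp
  | cons x c ih =>
    have h : D.Wt s (x :: c) = x.1 * 2 ^ D.r s x.2 + D.Wt s c := by simp [Wt]
    rw [h, ih]
    by_cases hx : p x = true
    · rw [List.filter_cons_of_pos hx, List.filter_cons_of_neg (by simp [hx])]
      simp only [Wt, List.map_cons, List.sum_cons]; ring
    · rw [List.filter_cons_of_neg hx, List.filter_cons_of_pos (by simpa using hx)]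
      simp only [Wt, List.map_cons, List.sum_cons]; ring

theorem abs_Wt_le (s R : ℕ) (c : List (ℤ × ℕ × ℕ)) (k : ℕ) (h : ∀ x ∈ c, D.r s x.2 + k ≤ R) :
    2 ^ k * |D.Wt s c| ≤ nrm c * 2 ^ R := by
  induction c with
  | nil => simp [nrm]
  | cons x c ih =>
    have h0 : D.Wt s (x :: c) = x.1 * 2 ^ D.r s x.2 + D.Wt s c := by simp [Wt]
    have h1 := ih fun y hy => h y (List.mem_cons_of_mem _ hy)
    have h2 := h x List.mem_cons_self
    have h3 : (nrm (x :: c) : ℤ) = |x.1| + nrm c := by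
      simp [nrm]
    rw [h0, h3]
    have h4 : |x.1 * 2 ^ D.r s x.2 + D.Wt s c| ≤ |x.1| * 2 ^ D.r s x.2 + |D.Wt s c| := by
      refine (abs_add_le _ _).trans ?_
      rw [abs_mul, abs_of_nonneg (a := (2 : ℤ) ^ D.r s x.2) (by positivity)]
    have h5 : (2 : ℤ) ^ k * 2 ^ D.r s x.2 ≤ 2 ^ R := by
      rw [← pow_add]
      exact pow_le_pow_right₀ (by norm_num) (by omega)
    calc (2 : ℤ) ^ k * |x.1 * 2 ^ D.r s x.2 + D.Wt s c|
        ≤ 2 ^ k * (|x.1| * 2 ^ D.r s x.2 + |D.Wt s c|) :=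
          mul_le_mul_of_nonneg_left h4 (by positivity)
      _ = |x.1| * (2 ^ k * 2 ^ D.r s x.2) + 2 ^ k * |D.Wt s c| := by ring
      _ ≤ |x.1| * 2 ^ R + nrm c * 2 ^ R :=
          add_le_add (mul_le_mul_of_nonneg_left h5 (abs_nonneg _)) h1
      _ = _ := by ring

theorem dvd_Wt (s R : ℕ) (c : List (ℤ × ℕ × ℕ)) (h : ∀ x ∈ c, R ≤ D.r s x.2) :
    (2 : ℤ) ^ R ∣ D.Wt s c := by
  refine List.dvd_sum fun z hz => ?_
  obtain ⟨x, hx, rfl⟩ := List.mem_map.1 hz
  exact Dvd.dvd.mul_left (pow_dvd_pow _ (h x hx)) _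

theorem Wt_tied {s0 s : ℕ} (hs : s0 ≤ s) (c : List (ℤ × ℕ × ℕ)) (u : ℕ × ℕ) (hu : u.2 ≤ s0)
    (hc : ∀ x ∈ c, x.2.2 ≤ s0 ∧ D.cnt s0 x.2 = D.cnt s0 u ∧ D.r s0 u ≤ D.r s0 x.2) :
    D.Wt s c = 2 ^ D.r s u * (c.map fun x => x.1 * 2 ^ (D.r s0 x.2 - D.r s0 u)).sum := by
  induction c with
  | nil => simp
  | cons x c ih =>
    have h0 : D.Wt s (x :: c) = x.1 * 2 ^ D.r s x.2 + D.Wt s c := by simp [Wt]
    obtain ⟨h1, h2, h3⟩ := hc x List.mem_cons_self
    have h4 := D.r_tie h1 hu h2 hs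
    have h5 : D.r s x.2 = D.r s u + (D.r s0 x.2 - D.r s0 u) := by omega
    rw [h0, ih fun y hy => hc y (List.mem_cons_of_mem _ hy), h5, List.map_cons, List.sum_cons,
      pow_add]
    ring

/-- The sign of an integer combination is constant from a known stage on. -/
theorem sgn_stable (s0 : ℕ) : ∀ (n : ℕ) (c : List (ℤ × ℕ × ℕ)), c.length ≤ n →
    (∀ x ∈ c, x.2.2 ≤ s0) → nrm c < 2 ^ s0 →
    (∀ s ≥ s0, 0 < D.Wt s c) ∨ (∀ s ≥ s0, D.Wt s c = 0) ∨ (∀ s ≥ s0, D.Wt s c < 0) := by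
  intro n
  induction n with
  | zero =>
    intro c hc _ _
    have : c = [] := List.length_eq_zero_iff.1 (by omega)
    subst this
    right; left; intro s _; simp
  | succ n ih =>
    intro c hc hl hn
    by_cases hcn : c = []
    · subst hcn
      right; left; intro s _; simp
    have hne : c.toFinset.Nonempty := by
      obtain ⟨y, hy⟩ := List.exists_mem_of_ne_nil c hcn
      exact ⟨y, List.mem_toFinset.2 hy⟩
    obtain ⟨x0, hx0, hmax⟩ := Finset.exists_max_image c.toFinset (fun x => D.cnt s0 x.2) hne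
    set p : ℤ × ℕ × ℕ → Bool := fun x => decide (D.cnt s0 x.2 = D.cnt s0 x0.2) with hp
    have hne1 : (c.filter p).toFinset.Nonempty :=
      ⟨x0, List.mem_toFinset.2 (List.mem_filter.2 ⟨List.mem_toFinset.1 hx0, by simp [hp]⟩)⟩
    obtain ⟨u0, hu0, hmin⟩ := Finset.exists_min_image (c.filter p).toFinset
      (fun x => D.r s0 x.2) hne1
    rw [List.mem_toFinset, List.mem_filter] at hu0
    have hu0c : D.cnt s0 u0.2 = D.cnt s0 x0.2 := by simpa [hp] using hu0.2
    set m : ℤ := ((c.filter p).map fun x => x.1 * 2 ^ (D.r s0 x.2 - D.r s0 u0.2)).sum with hm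
    have h1 : ∀ s ≥ s0, D.Wt s (c.filter p) = 2 ^ D.r s u0.2 * m := by
      intro s hs
      refine D.Wt_tied hs _ _ (hl _ hu0.1) fun x hx => ?_
      have hx' := List.mem_filter.1 hx
      have hx2 : D.cnt s0 x.2 = D.cnt s0 x0.2 := by simpa [hp] using hx'.2
      exact ⟨hl _ hx'.1, by rw [hx2, hu0c], hmin x (List.mem_toFinset.2 hx)⟩
    have h2 : ∀ s ≥ s0, |D.Wt s (c.filter fun x => !p x)| < 2 ^ D.r s u0.2 := by
      intro s hs
      have h3 := D.abs_Wt_le s (D.r s u0.2) (c.filter fun x => !p x) s0 fun x hx => by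
        have hx' := List.mem_filter.1 hx
        have hx2 : D.cnt s0 x.2 ≠ D.cnt s0 x0.2 := by simpa [hp] using hx'.2
        have hx3 := hmax x (List.mem_toFinset.2 hx'.1)
        refine D.r_sep ?_ hs
        rw [hu0c]
        exact lt_of_le_of_ne hx3 hx2
      have h4 : (nrm (c.filter fun x => !p x) : ℤ) < 2 ^ s0 := by
        have := nrm_filter_le (fun x => !p x) c
        exact_mod_cast lt_of_le_of_lt this hn
      have h5 : (2 : ℤ) ^ s0 * |D.Wt s (c.filter fun x => !p x)| < 2 ^ s0 * 2 ^ D.r s u0.2 :=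
        lt_of_le_of_lt h3 (mul_lt_mul_of_pos_right h4 (by positivity))
      exact lt_of_mul_lt_mul_left h5 (by positivity)
    rcases lt_trichotomy m 0 with hm0 | hm0 | hm0
    · right; right
      intro s hs
      rw [D.Wt_filter s p c, h1 s hs]
      have h3 := abs_lt.1 (h2 s hs)
      have h4 : (2 : ℤ) ^ D.r s u0.2 * m ≤ 2 ^ D.r s u0.2 * (-1) :=
        mul_le_mul_of_nonneg_left (by omega) (by positivity)
      linarith [h3.2]
    · have hlen : (c.filter fun x => !p x).length ≤ n := by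
        have h3 : (c.filter fun x => !p x).length < c.length := by
          rw [List.length_filter_lt_length_iff_exists]
          exact ⟨x0, List.mem_toFinset.1 hx0, by simp [hp]⟩
        omega
      have h3 : ∀ s ≥ s0, D.Wt s c = D.Wt s (c.filter fun x => !p x) := by
        intro s hs
        rw [D.Wt_filter s p c, h1 s hs, hm0]; ring
      rcases ih _ hlen (fun x hx => hl x (List.mem_filter.1 hx).1)
        (lt_of_le_of_lt (nrm_filter_le _ c) hn) with h | h | h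
      · left; intro s hs; rw [h3 s hs]; exact h s hs
      · right; left; intro s hs; rw [h3 s hs]; exact h s hs
      · right; right; intro s hs; rw [h3 s hs]; exact h s hs
    · left
      intro s hs
      rw [D.Wt_filter s p c, h1 s hs]
      have h3 := abs_lt.1 (h2 s hs)
      have h4 : (2 : ℤ) ^ D.r s u0.2 * 1 ≤ 2 ^ D.r s u0.2 * m :=
        mul_le_mul_of_nonneg_left (by omega) (by positivity)
      linarith [h3.1]

theorem sgn_stable' (s0 : ℕ) (c : List (ℤ × ℕ × ℕ))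
    (h1 : ∀ x ∈ c, x.2.2 ≤ s0) (h2 : nrm c < 2 ^ s0) :
    (∀ s ≥ s0, 0 < D.Wt s c) ∨ (∀ s ≥ s0, D.Wt s c = 0) ∨ (∀ s ≥ s0, D.Wt s c < 0) :=
  D.sgn_stable s0 c.length c le_rfl h1 h2

/-- The path `x` through the tree. -/
def IsPath (x : ℕ → ℕ) : Prop := ∀ j, x j < D.B j ∧ D.T j (x j) = true ∧ x (j + 1) / D.b j = x j

theorem IsPath.anc {x : ℕ → ℕ} (hx : D.IsPath x) {i j : ℕ} (h : i ≤ j) :
    D.anc i j (x j) = x i := by
  induction j, h using Nat.le_induction with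
  | base => rw [Dat.anc, Nat.div_self (D.B_pos i), Nat.div_one]
  | succ j hj ih =>
    rw [← ih, ← (hx j).2.2, Dat.anc, Dat.anc, Nat.div_div_eq_div_mul, D.B_succ]
    congr 1
    rw [Nat.mul_comm (D.B j) (D.b j), Nat.mul_div_assoc _ (D.B_dvd hj)]

/-- Node `x j` separates the cuts which are to its left and to its right. -/
theorem IsPath.cnt_lt {x : ℕ → ℕ} (hx : D.IsPath x) {j s : ℕ} {u v : ℕ × ℕ}
    (hu : D.cle u (x j, j)) (hv : D.cle (x j + 1, j) v) (hs : j ≤ s) : D.cnt s u < D.cnt s v := by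
  have huv : D.cle u v := by
    have hp := D.B_pos j
    refine Nat.le_of_mul_le_mul_right ?_ hp
    have h1 : u.1 * D.B j ≤ x j * D.B u.2 := hu
    have h2 : (x j + 1) * D.B v.2 ≤ v.1 * D.B j := hv
    calc u.1 * D.B v.2 * D.B j = u.1 * D.B j * D.B v.2 := by ring
      _ ≤ x j * D.B u.2 * D.B v.2 := Nat.mul_le_mul_right _ h1
      _ ≤ (x j + 1) * D.B v.2 * D.B u.2 := by nlinarith
      _ ≤ v.1 * D.B j * D.B u.2 := Nat.mul_le_mul_right _ h2
      _ = _ := by ring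
  refine Finset.card_lt_card ⟨D.cset_mono huv s, fun h => ?_⟩
  have h1 : x s ∈ D.cset s v := by
    refine Finset.mem_filter.2 ⟨Finset.mem_range.2 (hx s).1, (hx s).2.1, ?_⟩
    refine D.lft_mono (u := (x j + 1, j)) hv ?_
    rw [D.lft_anc (u := (x j + 1, j)) le_rfl hs, IsPath.anc D hx hs]
  have h2 := h h1
  have h3 : D.lft s (x s) u := (Finset.mem_filter.1 h2).2.2
  have h4 := D.lft_mono (v := (x j, j)) hu h3
  rw [D.lft_anc (u := (x j, j)) le_rfl hs, IsPath.anc D hx hs] at h4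
  have := D.B_pos j
  have h5 : (x j + 1) * D.B j ≤ x j * D.B j := h4
  nlinarith

/-- (F3) -/
theorem IsPath.lt {x : ℕ → ℕ} (hx : D.IsPath x) (i j C : ℕ) :
    ∀ s, i ≤ s → j ≤ s → C < 2 ^ s →
      (C : ℤ) * 2 ^ D.r s (x i, i) < 2 ^ D.r s (x j + 1, j) := by
  intro s hi hj hC
  have h1 : D.cle (x i, i) (x s, s) := by
    have h2 := IsPath.anc D hx hi
    obtain ⟨k, hk⟩ := D.B_dvd hi
    show x i * D.B s ≤ x s * D.B i
    have hp := D.B_pos i
    rw [← h2, Dat.anc, hk, Nat.mul_div_cancel_left _ hp]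
    calc x s / k * (D.B i * k) = (x s / k * k) * D.B i := by ring
      _ ≤ x s * D.B i := Nat.mul_le_mul_right _ (Nat.div_mul_le_self _ _)
  have h2 : D.cle (x s + 1, s) (x j + 1, j) := by
    have h2 := IsPath.anc D hx hj
    obtain ⟨k, hk⟩ := D.B_dvd hj
    show (x s + 1) * D.B j ≤ (x j + 1) * D.B s
    have hp := D.B_pos j
    have hk0 : 0 < k := by
      rcases Nat.eq_zero_or_pos k with h0 | h0
      · have := D.B_pos s
        rw [hk, h0] at this; omega
      · exact h0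
    rw [← h2, Dat.anc, hk, Nat.mul_div_cancel_left _ hp]
    have h3 : x s + 1 ≤ (x s / k + 1) * k := by
      have := Nat.lt_div_mul_add (a := x s) hk0
      nlinarith
    calc (x s + 1) * D.B j ≤ (x s / k + 1) * k * D.B j := Nat.mul_le_mul_right _ h3
      _ = _ := by ring
  have h3 := D.r_sep (IsPath.cnt_lt D hx h1 h2 le_rfl) le_rfl
  calc (C : ℤ) * 2 ^ D.r s (x i, i) < 2 ^ s * 2 ^ D.r s (x i, i) :=
        mul_lt_mul_of_pos_right (by exact_mod_cast hC) (by positivity)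
    _ = 2 ^ (D.r s (x i, i) + s) := by rw [pow_add]; ring
    _ ≤ 2 ^ D.r s (x j + 1, j) := pow_le_pow_right₀ (by norm_num) h3

/-- (F2) -/
theorem IsPath.dich {x : ℕ → ℕ} (hx : D.IsPath x) (s0 : ℕ) (c : List (ℤ × ℕ × ℕ))
    (h1 : ∀ y ∈ c, y.2.2 ≤ s0) (h2 : 2 * nrm c < 2 ^ s0) :
    (∀ s ≥ s0, 2 ^ D.r s (x s0 + 1, s0) ≤ 2 * D.Wt s c) ∨
      (∀ s ≥ s0, D.Wt s c ≤ nrm c * 2 ^ D.r s (x s0, s0)) := by
  classical
  set p : ℤ × ℕ × ℕ → Bool := fun y => decide (D.cle (x s0 + 1, s0) y.2) with hp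
  have hL : ∀ y ∈ c.filter (fun y => !p y), D.cle y.2 (x s0, s0) := by
    intro y hy
    have hy' := List.mem_filter.1 hy
    have hy2 : ¬ D.cle (x s0 + 1, s0) y.2 := by simpa [hp] using hy'.2
    have hy3 := h1 y hy'.1
    obtain ⟨k, hk⟩ := D.B_dvd hy3
    have hp0 := D.B_pos y.2.2
    have h5 : ¬ (x s0 + 1) * D.B y.2.2 ≤ y.2.1 * D.B s0 := hy2
    show y.2.1 * D.B s0 ≤ x s0 * D.B y.2.2
    rw [hk] at h5 ⊢
    have e1 : y.2.1 * (D.B y.2.2 * k) = y.2.1 * k * D.B y.2.2 := by ring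
    rw [e1, Nat.mul_le_mul_right_iff hp0] at h5 ⊢
    omega
  have hR : ∀ y ∈ c.filter p, D.cle (x s0 + 1, s0) y.2 := by
    intro y hy
    simpa [hp] using (List.mem_filter.1 hy).2
  have hrL : ∀ s, ∀ y ∈ c.filter (fun y => !p y), D.r s y.2 + 0 ≤ D.r s (x s0, s0) :=
    fun s y hy => by simpa using D.r_mono (hL y hy) s
  have hsep : ∀ s ≥ s0, D.r s (x s0, s0) + s0 ≤ D.r s (x s0 + 1, s0) := fun s hs =>
    D.r_sep (IsPath.cnt_lt D hx (j := s0) (s := s0) (u := (x s0, s0)) (v := (x s0 + 1, s0)) le_rfl le_rfl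
      le_rfl) hs
  have hnl := nrm_filter_le (fun y => !p y) c
  have hL1 : ∀ s, |D.Wt s (c.filter fun y => !p y)| ≤ nrm c * 2 ^ D.r s (x s0, s0) := by
    intro s
    have h3 := D.abs_Wt_le s (D.r s (x s0, s0)) (c.filter fun y => !p y) 0 (hrL s)
    rw [pow_zero, one_mul] at h3
    exact h3.trans (mul_le_mul_of_nonneg_right (by exact_mod_cast hnl) (by positivity))
  rcases D.sgn_stable' s0 (c.filter p) (fun y hy => h1 y (List.mem_filter.1 hy).1)
    (lt_of_le_of_lt (nrm_filter_le _ c) (by omega)) with h | h | h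
  · left
    intro s hs
    have h3 := h s hs
    obtain ⟨m, hm⟩ := D.dvd_Wt s (D.r s (x s0 + 1, s0)) (c.filter p)
      fun y hy => D.r_mono (hR y hy) s
    have h4 : 0 < m := by
      rw [hm] at h3
      exact pos_of_mul_pos_right h3 (by positivity)
    have h5 : (2 : ℤ) ^ D.r s (x s0 + 1, s0) ≤ D.Wt s (c.filter p) := by
      rw [hm]
      nlinarith [show (0 : ℤ) < 2 ^ D.r s (x s0 + 1, s0) by positivity]
    have h6 := abs_le.1 (hL1 s)
    have h7 : 2 * ((nrm c : ℤ) * 2 ^ D.r s (x s0, s0)) ≤ 2 ^ D.r s (x s0 + 1, s0) := by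
      calc 2 * ((nrm c : ℤ) * 2 ^ D.r s (x s0, s0)) = (2 * nrm c : ℤ) * 2 ^ D.r s (x s0, s0) := by
            ring
        _ ≤ 2 ^ s0 * 2 ^ D.r s (x s0, s0) :=
            mul_le_mul_of_nonneg_right (by exact_mod_cast h2.le) (by positivity)
        _ = 2 ^ (D.r s (x s0, s0) + s0) := by rw [pow_add]; ring
        _ ≤ _ := pow_le_pow_right₀ (by norm_num) (hsep s hs)
    rw [D.Wt_filter s p c]
    linarith [h6.1]
  all_goals
    right
    intro s hs
    have h3 := h s hs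
    have h6 := abs_le.1 (hL1 s)
    rw [D.Wt_filter s p c]
    linarith [h6.2]

/-- (F1) -/
theorem top (s0 : ℕ) (c : List (ℤ × ℕ × ℕ))
    (h1 : ∀ y ∈ c, y.2.2 ≤ s0) (h2 : 6 * nrm c + 2 ≤ 2 ^ s0) :
    (∀ s ≥ s0, 2 ^ D.r s (1, 0) ≤ 3 * D.Wt s c) ∨
      (∀ s ≥ s0, 2 * (3 * D.Wt s c - 2 ^ D.r s (1, 0)) ≤ - 2 ^ s) := by
  classical
  obtain ⟨y, hy, hmax⟩ : ∃ y ∈ (Finset.range (D.B s0)).filter (fun τ => D.T s0 τ = true),
      ∀ z ∈ (Finset.range (D.B s0)).filter (fun τ => D.T s0 τ = true), z ≤ y := by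
    obtain ⟨τ, h3, h4⟩ := D.ne s0
    exact Finset.exists_max_image _ (fun z => z) ⟨τ, by simp [h4]; exact h3⟩
  rw [Finset.mem_filter, Finset.mem_range] at hy
  set Q : ℕ × ℕ := (y + 1, s0) with hQ
  have hall : ∀ v, D.cle Q v → D.cset s0 v = (Finset.range (D.B s0)).filter
      (fun τ => D.T s0 τ = true) := by
    intro v hv
    ext τ
    simp only [cset, Finset.mem_filter]
    refine and_congr_right fun h3 => and_iff_left_of_imp fun h4 => ?_
    refine D.lft_mono hv ?_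
    have h5 := hmax τ (Finset.mem_filter.2 ⟨h3, h4⟩)
    show (τ + 1) * D.B s0 ≤ (y + 1) * D.B s0
    exact Nat.mul_le_mul_right _ (by omega)
  have hQ1 : D.cle Q (1, 0) := by
    show (y + 1) * 1 ≤ 1 * D.B s0
    omega
  have hcntQ : ∀ v, D.cle Q v → D.cnt s0 v = D.cnt s0 Q := fun v hv => by
    rw [cnt, cnt, hall v hv, hall Q le_rfl]
  have hrQ : ∀ s ≥ s0, s ≤ D.r s Q := by
    intro s hs
    have h3 : D.cset s Q = D.cset s (1, 0) := D.cset_tie le_rfl (Nat.zero_le _)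
      (by rw [hall _ le_rfl, hall _ hQ1]) hs
    have h4 : 0 < D.cnt s Q := by
      rw [cnt, h3]
      obtain ⟨τ, h5, h6⟩ := D.ne s
      refine Finset.card_pos.2 ⟨τ, Finset.mem_filter.2 ⟨Finset.mem_range.2 h5, h6, ?_⟩⟩
      show (τ + 1) * 1 ≤ 1 * D.B s
      have : τ < D.B s := h5
      omega
    calc s ≤ s * D.cnt s Q := Nat.le_mul_of_pos_right _ h4
      _ ≤ D.r s Q := Finset.single_le_sum (f := fun j => j * D.cnt j Q)
          (fun _ _ => Nat.zero_le _) (Finset.mem_range.2 (by omega))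
  set p : ℤ × ℕ × ℕ → Bool := fun z => decide (D.cle Q z.2) with hp
  have hL : ∀ z ∈ c.filter (fun z => !p z), D.cnt s0 z.2 < D.cnt s0 Q := by
    intro z hz
    have hz' := List.mem_filter.1 hz
    have hz2 : ¬ D.cle Q z.2 := by simpa [hp] using hz'.2
    have hz4 : D.cle z.2 Q := (D.cle_total _ _).resolve_left hz2
    refine Finset.card_lt_card ⟨D.cset_mono hz4 s0, fun h => hz2 ?_⟩
    have h5 : y ∈ D.cset s0 Q := by
      rw [hall Q le_rfl]; exact Finset.mem_filter.2 ⟨Finset.mem_range.2 hy.1, hy.2⟩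
    have h6 := (Finset.mem_filter.1 (h h5)).2.2
    exact h6
  have hR : ∀ z ∈ c.filter p, D.cle Q z.2 := by
    intro z hz
    simpa [hp] using (List.mem_filter.1 hz).2
  set d : List (ℤ × ℕ × ℕ) := ((c.filter p).map fun z => (3 * z.1, z.2)) ++ [(-1, 1, 0)] with hd
  have hdW : ∀ s, D.Wt s d = 3 * D.Wt s (c.filter p) - 2 ^ D.r s (1, 0) := by
    intro s
    rw [hd, D.Wt_append]
    have h3 : D.Wt s ((c.filter p).map fun z => (3 * z.1, z.2)) = 3 * D.Wt s (c.filter p) := by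
      rw [Wt, Wt, List.map_map, ← List.sum_map_mul_left]
      congr 1
      refine List.map_congr_left fun z _ => ?_
      simp only [Function.comp]; ring
    rw [h3]
    simp [Wt]; ring
  have hdn : nrm d < 2 ^ s0 := by
    rw [hd, nrm_append]
    have h3 : nrm ((c.filter p).map fun z => (3 * z.1, z.2)) = 3 * nrm (c.filter p) := by
      rw [nrm, nrm, List.map_map, ← List.sum_map_mul_left]
      congr 1
      refine List.map_congr_left fun z _ => ?_
      simp [Int.natAbs_mul]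
    have h4 := nrm_filter_le p c
    rw [h3]
    simp [nrm] at h4 h2 ⊢
    omega
  have hdl : ∀ z ∈ d, z.2.2 ≤ s0 := by
    intro z hz
    rw [hd, List.mem_append] at hz
    rcases hz with hz | hz
    · obtain ⟨w, hw, rfl⟩ := List.mem_map.1 hz
      exact h1 w (List.mem_filter.1 hw).1
    · rw [List.mem_singleton] at hz
      subst hz
      exact Nat.zero_le _
  have hLb : ∀ s ≥ s0, 6 * |D.Wt s (c.filter fun z => !p z)| ≤ 2 ^ D.r s Q := by
    intro s hs
    have h3 := D.abs_Wt_le s (D.r s Q) (c.filter fun z => !p z) s0 fun z hz => D.r_sep (hL z hz) hs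
    have h4 := nrm_filter_le (fun z => !p z) c
    have h5 : (6 * nrm (c.filter fun z => !p z) : ℤ) ≤ 2 ^ s0 := by
      have : 6 * nrm (c.filter fun z => !p z) ≤ 2 ^ s0 := by omega
      exact_mod_cast this
    have h6 : (2 : ℤ) ^ s0 * (6 * |D.Wt s (c.filter fun z => !p z)|) ≤ 2 ^ s0 * 2 ^ D.r s Q := by
      nlinarith [show (0 : ℤ) < 2 ^ D.r s Q by positivity]
    exact le_of_mul_le_mul_left h6 (by positivity)
  have hdiv : ∀ s ≥ s0, ∃ m k : ℕ × ℤ, D.Wt s (c.filter p) = 2 ^ D.r s Q * k.2 ∧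
      (2 : ℤ) ^ D.r s (1, 0) = 2 ^ D.r s Q * 2 ^ m.1 := by
    intro s hs
    obtain ⟨m, hm⟩ := D.dvd_Wt s (D.r s Q) (c.filter p) fun z hz => D.r_mono (hR z hz) s
    refine ⟨(D.r s (1, 0) - D.r s Q, 0), (0, m), hm, ?_⟩
    rw [← pow_add]
    congr 1
    have := D.r_mono hQ1 s
    omega
  rcases D.sgn_stable' s0 d hdl hdn with h | h | h
  · left
    intro s hs
    have h3 := h s hs
    rw [hdW] at h3
    obtain ⟨m, k, hk, hm⟩ := hdiv s hs
    have h4 : (2 : ℤ) ^ D.r s Q ≤ 3 * D.Wt s (c.filter p) - 2 ^ D.r s (1, 0) := by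
      rw [hk, hm] at h3 ⊢
      have e : 3 * ((2 : ℤ) ^ D.r s Q * k.2) - 2 ^ D.r s Q * 2 ^ m.1 =
          2 ^ D.r s Q * (3 * k.2 - 2 ^ m.1) := by ring
      rw [e] at h3 ⊢
      have h5 : 0 < 3 * k.2 - 2 ^ m.1 := pos_of_mul_pos_right h3 (by positivity)
      nlinarith [show (0 : ℤ) < 2 ^ D.r s Q by positivity]
    have h5 := hLb s hs
    rw [D.Wt_filter s p c]
    have h6 := neg_abs_le (D.Wt s (c.filter fun z => !p z))
    have h7 := abs_nonneg (D.Wt s (c.filter fun z => !p z))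
    linarith
  · exfalso
    have h3 := h s0 le_rfl
    rw [hdW] at h3
    obtain ⟨m, k, hk, hm⟩ := hdiv s0 le_rfl
    rw [hk, hm] at h3
    have e : 3 * ((2 : ℤ) ^ D.r s0 Q * k.2) - 2 ^ D.r s0 Q * 2 ^ m.1 =
        2 ^ D.r s0 Q * (3 * k.2 - 2 ^ m.1) := by ring
    rw [e] at h3
    have h4 : 3 * k.2 - 2 ^ m.1 = 0 := by
      rcases mul_eq_zero.1 h3 with h5 | h5
      · exact absurd h5 (by positivity)
      · exact h5
    have h5 : (3 : ℤ) ∣ 2 ^ m.1 := ⟨k.2, by linarith⟩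
    have h6 : (3 : ℤ) ∣ 2 := Int.Prime.dvd_pow' (p := 3) (by norm_num) h5
    norm_num at h6
  · right
    intro s hs
    have h3 := h s hs
    rw [hdW] at h3
    obtain ⟨m, k, hk, hm⟩ := hdiv s hs
    have h4 : 3 * D.Wt s (c.filter p) - 2 ^ D.r s (1, 0) ≤ -(2 : ℤ) ^ D.r s Q := by
      rw [hk, hm] at h3 ⊢
      have e : 3 * ((2 : ℤ) ^ D.r s Q * k.2) - 2 ^ D.r s Q * 2 ^ m.1 =
          2 ^ D.r s Q * (3 * k.2 - 2 ^ m.1) := by ring
      rw [e] at h3 ⊢
      have h5 : 3 * k.2 - 2 ^ m.1 < 0 := by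
        by_contra hcon
        push Not at hcon
        have : 0 ≤ (2 : ℤ) ^ D.r s Q * (3 * k.2 - 2 ^ m.1) := mul_nonneg (by positivity) hcon
        linarith
      nlinarith [show (0 : ℤ) < 2 ^ D.r s Q by positivity]
    have h5 := hLb s hs
    rw [D.Wt_filter s p c]
    have h6 := le_abs_self (D.Wt s (c.filter fun z => !p z))
    have h7 : (2 : ℤ) ^ s ≤ 2 ^ D.r s Q := pow_le_pow_right₀ (by norm_num) (hrQ s hs)
    linarith

end Dat

end Pool.Agent.H454R3.Spec
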